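import Pool.Agent.Q97.UM.Stm3
import Pool.Agent.Q97.MM.Cor

set_option autoImplicit false

/-! Common lemmas for the jobs UM-R4 and UM-X0. -/

namespace Pool.Agent.Q175.UM

open Filter Topology MeasureTheory Complex
open Pool.Agent.W182.KO (P TF)
open Q80.SP (kr kr_bd kr_cont sc_int)
open Pool.Agent.Q97.UM
open scoped ContDiff

noncomputable section

theorem zt_eq (y : ℝ) : zt y = riemannZeta (Q97.MM.pt y) := by
  unfold zt Q97.MM.pt
  congr 1
  push_cast
  ring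

theorem zt_cont : Continuous zt := by
  have h := Q97.MM.zeta_line_cont (x := 1 / 2) (by norm_num)
  refine h.congr fun y => ?_
  rw [zt_eq]
  rfl

theorem zt_bd (y : ℝ) : ‖zt y‖ ≤ 180 * (1 + |y|) ^ 2 := by
  rw [zt_eq]
  exact Q97.MM.zeta_bd y

theorem TF_scale {ψ₁ : ℝ → ℝ} (h1 : ContDiff ℝ ∞ ψ₁) (h2 : ∀ u, 1 ≤ |u| → ψ₁ u = 0) {δ : ℝ}
    (hδ : 0 < δ) : TF δ (fun u => (ψ₁ (u / δ) : ℂ)) where
  cd := by
    have h3 : ContDiff ℝ ∞ (fun u : ℝ => ψ₁ (u / δ)) := h1.comp (by fun_prop)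
    exact Complex.ofRealCLM.contDiff.comp h3
  cs := by
    refine HasCompactSupport.intro (K := Set.Icc (-δ) δ) isCompact_Icc fun u hu => ?_
    have h3 : δ < |u| := by
      by_contra hcon
      exact hu (abs_le.1 (not_lt.1 hcon))
    rw [h2, Complex.ofReal_zero]
    rw [abs_div, abs_of_pos hδ, le_div_iff₀ hδ]
    linarith
  sp := by
    intro u hu
    rw [h2, Complex.ofReal_zero]
    rw [abs_div, abs_of_pos hδ, le_div_iff₀ hδ]
    have := le_abs_self u
    linarith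

theorem kr_mul_int {ξ1 : ℝ} {ψ : ℝ → ℂ} (h : TF ξ1 ψ) {L : ℝ} (hL : 1 ≤ L) {f : ℝ → ℂ}
    (hf : Continuous f) {A : ℝ} (hb : ∀ y, ‖f y‖ ≤ A * (1 + |y|) ^ 2) :
    Integrable (fun y => kr ψ L y * f y) := by
  obtain ⟨C, hC, hk⟩ := kr_bd h 4
  have hL0 : 0 < L := by linarith
  have hA : 0 ≤ A := by
    have := (norm_nonneg _).trans (hb 0)
    simpa using this
  refine ((sc_int hL0).const_mul (C * A)).mono' ((kr_cont h L).mul hf).aestronglyMeasurable
    (Eventually.of_forall fun y => ?_)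
  rw [norm_mul]
  have h1 := hk L hL0 y
  have h2 := hb y
  have hy : 1 + |y| ≤ 1 + L * |y| := by nlinarith [abs_nonneg y]
  have hy0 : 0 < 1 + L * |y| := by positivity
  calc ‖kr ψ L y‖ * ‖f y‖ ≤ (C * (L / (1 + L * |y|) ^ 4)) * (A * (1 + L * |y|) ^ 2) := by
        apply mul_le_mul h1 _ (norm_nonneg _) (by positivity)
        refine h2.trans ?_
        gcongr
    _ = C * A * (L / (1 + L * |y|) ^ 2) := by
        field_simp

/-- the coefficient functions -/
def w (n : ℕ) (t : ℝ) : ℂ := (n : ℂ) ^ (-(1 / 2 + t * I))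

theorem w_zero (t : ℝ) : w 0 t = 0 := by
  unfold w
  rw [Nat.cast_zero, Complex.zero_cpow]
  intro h0
  have := congrArg Complex.re h0
  simp at this

theorem w_mul (m n : ℕ) (t : ℝ) : w (m * n) t = w m t * w n t := by
  unfold w
  rw [Nat.cast_mul, Complex.natCast_mul_natCast_cpow]

theorem w_one (t : ℝ) : w 1 t = 1 := by simp [w]

theorem w_norm {n : ℕ} (hn : 1 ≤ n) (t : ℝ) : ‖w n t‖ ≤ 1 := by
  unfold w
  rw [Complex.norm_natCast_cpow_of_pos hn]
  have e : (-(1 / 2 + (t : ℂ) * I)).re = -(1 / 2) := by simp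
  rw [e]
  apply Real.rpow_le_one_of_one_le_of_nonpos (by exact_mod_cast hn) (by norm_num)

theorem w_shift {n : ℕ} (hn : 1 ≤ n) (t y : ℝ) :
    w n (t + y) = w n t * cexp (-(I * (Real.log n * y : ℝ))) := by
  unfold w
  have hnc : (n : ℂ) ≠ 0 := by exact_mod_cast (by omega : n ≠ 0)
  have e3 : -(I * (Real.log n * y : ℝ)) = Complex.log n * (-(y * I)) := by
    rw [← Complex.natCast_log]
    push_cast
    ring
  rw [e3, ← Complex.cpow_def_of_ne_zero hnc, ← Complex.cpow_add _ _ hnc]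
  congr 1
  push_cast
  ring

/-- the filter applied to finite combinations -/
theorem dbl (hF : S_FIL) {ξ1 : ℝ} {ψ : ℝ → ℂ} (h : TF ξ1 ψ) (hξ : 0 ≤ ξ1) :
    ∃ C : ℝ, 0 ≤ C ∧ ∀ T : ℝ, 4 ≤ T → ∀ t : ℝ, T / 2 ≤ t → t ≤ 3 * T →
    ∀ (s : Finset (ℕ × ℕ)) (a : ℕ × ℕ → ℂ) (μ : ℕ × ℕ → ℝ), (∀ p ∈ s, |μ p| ≤ 2) →
      (∀ p ∈ s, ‖a p‖ ≤ 1) →
      ‖(∫ y : ℝ, kr ψ (Real.log T) y * (∑ p ∈ s, a p *
          (cexp (I * (μ p * Real.log T * y : ℝ)) * zt (t + y)))) -
        ∑ p ∈ s, a p * ∑' n : ℕ, ψ (Real.log n / Real.log T - μ p) * w n t‖ ≤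
      s.card * (C / T ^ 2) := by
  obtain ⟨C, hC, hb⟩ := hF ξ1 ψ h hξ
  refine ⟨C, hC, fun T hT t ht1 ht2 s a μ hμ ha => ?_⟩
  have hT0 : 0 < T := by linarith
  have hL1 : 1 ≤ Real.log T := by
    have h1 : Real.exp 1 ≤ T := by linarith [Real.exp_one_lt_d9]
    have h2 := Real.log_le_log (Real.exp_pos 1) h1
    rwa [Real.log_exp] at h2
  have hi : ∀ p ∈ s, Integrable (fun y : ℝ => a p * (kr ψ (Real.log T) y *
      (cexp (I * (μ p * Real.log T * y : ℝ)) * zt (t + y)))) := by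
    intro p hp
    refine (kr_mul_int h hL1 (A := 180 * (1 + |t|) ^ 2) ?_ fun y => ?_).const_mul (a p)
    · refine Continuous.mul ?_ (zt_cont.comp (by fun_prop))
      refine Complex.continuous_exp.comp ?_
      refine continuous_const.mul ?_
      exact Complex.continuous_ofReal.comp (by fun_prop)
    · rw [norm_mul]
      have e1 : ‖cexp (I * (μ p * Real.log T * y : ℝ))‖ = 1 := by
        rw [mul_comm, Complex.norm_exp_ofReal_mul_I]
      rw [e1, one_mul]
      refine (zt_bd _).trans ?_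
      have h3 : 1 + |t + y| ≤ (1 + |t|) * (1 + |y|) := by
        have := abs_add_le t y
        nlinarith [abs_nonneg t, abs_nonneg y]
      calc 180 * (1 + |t + y|) ^ 2 ≤ 180 * ((1 + |t|) * (1 + |y|)) ^ 2 := by
            gcongr
        _ = 180 * (1 + |t|) ^ 2 * (1 + |y|) ^ 2 := by ring
  have e1 : (∫ y : ℝ, kr ψ (Real.log T) y * (∑ p ∈ s, a p *
      (cexp (I * (μ p * Real.log T * y : ℝ)) * zt (t + y)))) =
      ∑ p ∈ s, a p * ∫ y : ℝ, (kr ψ (Real.log T) y *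
        (cexp (I * (μ p * Real.log T * y : ℝ)) * zt (t + y))) := by
    have e2 : (∫ y : ℝ, kr ψ (Real.log T) y * (∑ p ∈ s, a p *
      (cexp (I * (μ p * Real.log T * y : ℝ)) * zt (t + y)))) =
      ∫ y : ℝ, ∑ p ∈ s, a p * (kr ψ (Real.log T) y *
        (cexp (I * (μ p * Real.log T * y : ℝ)) * zt (t + y))) := by
      refine integral_congr_ae (Eventually.of_forall fun y => ?_)
      simp only
      rw [Finset.mul_sum]
      refine Finset.sum_congr rfl fun p _ => ?_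
      ring
    rw [e2, integral_finsetSum _ hi]
    refine Finset.sum_congr rfl fun p _ => ?_
    rw [integral_const_mul]
  rw [e1, ← Finset.sum_sub_distrib]
  refine (norm_sum_le _ _).trans ?_
  rw [← nsmul_eq_mul]
  refine Finset.sum_le_card_nsmul _ _ _ fun p hp => ?_
  rw [← mul_sub, norm_mul]
  have h4 := hb T hT t ht1 ht2 (μ p) (hμ p hp)
  calc ‖a p‖ * _ ≤ 1 * (C / T ^ 2) := by
        apply mul_le_mul (ha p hp) _ (norm_nonneg _) zero_le_one
        exact h4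
    _ = C / T ^ 2 := one_mul _

end

end Pool.Agent.Q175.UM
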