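import Pool.Agent.Q97.UM.Stm4
import Pool.Agent.Q210.UM.Gev

set_option autoImplicit false

/-! Job UM-GEV2 (helper175): the window of `S_GEV` can be tilted. -/

namespace Pool.Agent.Q175.UM

open Filter Topology MeasureTheory Complex
open Pool.Agent.Q97.UM
open Pool.Agent.Q210.UM (base aj sj gg pj pl aj_pos sj_le gg_cont gg_props gg_rep pj_cont pj_abs
  pl_lim pl_cont pl_small aj_lower)
open scoped FourierTransform ContDiff

noncomputable section

/-- the window together with its approximations -/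
theorem gev_ext : ∃ (g P q : ℝ → ℝ) (K : ℝ), Continuous g ∧ (∀ u, 0 ≤ g u ∧ g u ≤ 1) ∧
    (∀ u, |u| ≤ 1 / 2 → g u = 1) ∧ (∀ u, 3 / 4 ≤ |u| → g u = 0) ∧
    Gev P q ((1 / 48) ^ (2 / 3 : ℝ)) (K * Real.exp 2) ∧ 0 ≤ K ∧
    ∀ u, Tendsto (fun J => gg g J u) atTop (𝓝 (P u)) := by
  obtain ⟨g, Q, hg, h01, h1, h0, hQ, hQi, ⟨K, hK⟩, hrep⟩ := base
  set L : ℝ → ℂ := fun u => ∫ y : ℝ, ((Q y * pl y : ℝ) : ℂ) * cexp (I * (u * y : ℝ)) with hL
  have hlim : ∀ u, Tendsto (fun J => (gg g J u : ℂ)) atTop (𝓝 (L u)) := by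
    intro u
    simp only [gg_rep hQ hQi hrep]
    apply tendsto_integral_of_dominated_convergence (fun y => |Q y|)
    · intro J
      apply Continuous.aestronglyMeasurable
      have := pj_cont J
      fun_prop
    · exact hQi.abs
    · intro J
      refine Eventually.of_forall fun y => ?_
      rw [norm_mul, Pool.Agent.Q210.UM.norm_exp, mul_one, Complex.norm_real, Real.norm_eq_abs, abs_mul]
      exact mul_le_of_le_one_right (abs_nonneg _) (pj_abs J y)
    · refine Eventually.of_forall fun y => ?_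
      apply Tendsto.mul_const
      exact (Complex.continuous_ofReal.tendsto _).comp ((pl_lim y).const_mul _)
  have hre : ∀ u, Tendsto (fun J => gg g J u) atTop (𝓝 (L u).re) := by
    intro u
    have h2 := (Complex.continuous_re.tendsto _).comp (hlim u)
    simpa [Function.comp_def] using h2
  have hLr : ∀ u, ((L u).re : ℂ) = L u := by
    intro u
    exact tendsto_nhds_unique ((Complex.continuous_ofReal.tendsto _).comp (hre u)) (hlim u)
  have hp := gg_props hg h01 h1 h0
  have hK0 : 0 ≤ K := (abs_nonneg _).trans (hK 0)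
  refine ⟨g, fun u => (L u).re, fun y => Q y * pl y, K, hg, h01, h1, h0, ?_, hK0, hre⟩
  refine ⟨by positivity, fun u hu => ?_, fun u hu => ?_, fun u => ?_, hQ.mul pl_cont, fun y => ?_,
    fun u => hLr u⟩
  · refine tendsto_nhds_unique (hre u) ?_
    have h2 : (fun J => gg g J u) = fun _ => (1 : ℝ) := by
      funext J
      exact (hp J).2.1 u (by have := sj_le J; linarith)
    rw [h2]
    exact tendsto_const_nhds
  · refine tendsto_nhds_unique (hre u) ?_
    have h2 : (fun J => gg g J u) = fun _ => (0 : ℝ) := by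
      funext J
      exact (hp J).2.2 u (by have := sj_le J; linarith)
    rw [h2]
    exact tendsto_const_nhds
  · exact ⟨ge_of_tendsto (hre u) (Eventually.of_forall fun J => ((hp J).1 u).1),
      le_of_tendsto (hre u) (Eventually.of_forall fun J => ((hp J).1 u).2)⟩
  · rw [abs_mul, mul_assoc]
    exact mul_le_mul (hK y) (pl_small y) (abs_nonneg _) hK0

/-- the transform of the tilted function -/
def ft (κ : ℝ) (g : ℝ → ℝ) (y : ℝ) : ℂ :=
  (1 / (2 * Real.pi) : ℝ) * ∫ u : ℝ, ((g u * Real.exp (κ * u) : ℝ) : ℂ) * cexp (-(I * (u * y : ℝ)))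

/-- the tilted factor -/
def sk (κ a y : ℝ) : ℂ := (1 / (2 * a) : ℝ) * ∫ s in (-a)..a, cexp ((I * y - κ) * s)

theorem sk_norm (κ y : ℝ) {a : ℝ} (ha : 0 < a) : ‖sk κ a y‖ ≤ Real.exp (a * |κ|) := by
  unfold sk
  rw [norm_mul, Complex.norm_real, Real.norm_of_nonneg (by positivity)]
  have h1 : ‖∫ s in (-a)..a, cexp ((I * y - κ) * s)‖ ≤ Real.exp (a * |κ|) * |a - -a| := by
    refine intervalIntegral.norm_integral_le_of_norm_le_const fun s hs => ?_
    rw [Set.uIoc_of_le (by linarith)] at hs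
    rw [Complex.norm_exp]
    refine Real.exp_le_exp.2 ?_
    have e1 : ((I * (y : ℂ) - κ) * s).re = -(κ * s) := by simp
    rw [e1]
    calc -(κ * s) ≤ |κ * s| := neg_le_abs _
      _ = |κ| * |s| := abs_mul _ _
      _ ≤ |κ| * a := mul_le_mul_of_nonneg_left (abs_le.2 ⟨hs.1.le, hs.2⟩) (abs_nonneg _)
      _ = a * |κ| := mul_comm _ _
  rw [show |a - -a| = 2 * a by rw [abs_of_pos (by linarith)]; ring] at h1
  calc 1 / (2 * a) * ‖∫ s in (-a)..a, cexp ((I * y - κ) * s)‖ ≤
        1 / (2 * a) * (Real.exp (a * |κ|) * (2 * a)) := mul_le_mul_of_nonneg_left h1 (by positivity)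
    _ = Real.exp (a * |κ|) := by field_simp

theorem sk_small (κ : ℝ) {a y : ℝ} (ha : 0 < a) (hy : 3 ≤ a * |y|) :
    ‖sk κ a y‖ ≤ Real.exp (a * |κ|) * Real.exp (-1) := by
  have hy0 : y ≠ 0 := by
    rintro rfl
    simp at hy
    linarith
  have hw : (I * (y : ℂ) - κ) ≠ 0 := by
    intro h
    have := congrArg Complex.im h
    simp at this
    exact hy0 this
  have hwn : |y| ≤ ‖(I * (y : ℂ) - κ)‖ := by
    have := Complex.abs_im_le_norm (I * (y : ℂ) - κ)
    simpa using this
  have hy1 : 0 < |y| := abs_pos.2 hy0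
  unfold sk
  rw [integral_exp_mul_complex hw, norm_mul, Complex.norm_real, Real.norm_of_nonneg (by positivity),
    norm_div]
  have h1 : ∀ b : ℝ, |b| = a → ‖cexp ((I * y - κ) * b)‖ ≤ Real.exp (a * |κ|) := by
    intro b hb
    rw [Complex.norm_exp]
    refine Real.exp_le_exp.2 ?_
    have e1 : ((I * (y : ℂ) - κ) * b).re = -(κ * b) := by simp
    rw [e1]
    calc -(κ * b) ≤ |κ * b| := neg_le_abs _
      _ = a * |κ| := by rw [abs_mul, hb, mul_comm]
  have h2 : ‖cexp ((I * y - κ) * (a : ℝ)) - cexp ((I * y - κ) * ((-a : ℝ) : ℂ))‖ ≤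
      2 * Real.exp (a * |κ|) := by
    refine (norm_sub_le _ _).trans ?_
    have h3 := h1 a (abs_of_pos ha)
    have h4 := h1 (-a) (by rw [abs_neg, abs_of_pos ha])
    linarith
  have h5 : (1 : ℝ) / 3 ≤ Real.exp (-1) := by
    have h6 : Real.exp 1 < 3 := Real.exp_one_lt_three
    rw [Real.exp_neg, ← one_div]
    exact one_div_le_one_div_of_le (Real.exp_pos _) h6.le
  calc 1 / (2 * a) * (‖cexp ((I * y - κ) * (a : ℝ)) - cexp ((I * y - κ) * ((-a : ℝ) : ℂ))‖ /
        ‖I * (y : ℂ) - κ‖) ≤ 1 / (2 * a) * (2 * Real.exp (a * |κ|) / |y|) := by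
        refine mul_le_mul_of_nonneg_left ?_ (by positivity)
        exact div_le_div₀ (by positivity) h2 hy1 hwn
    _ = Real.exp (a * |κ|) * (1 / (a * |y|)) := by field_simp
    _ ≤ Real.exp (a * |κ|) * Real.exp (-1) := by
        refine mul_le_mul_of_nonneg_left (le_trans ?_ h5) (Real.exp_pos _).le
        exact one_div_le_one_div_of_le (by norm_num) hy

/-- one averaging step -/
theorem ft_step (κ : ℝ) {g : ℝ → ℝ} (hg : Continuous g) {r : ℝ} (hr : ∀ u, r ≤ |u| → g u = 0)
    {a : ℝ} (ha : 0 < a) (y : ℝ) :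
    ft κ (fun u => 1 / (2 * a) * ∫ s in (-a)..a, g (u + s)) y = sk κ a y * ft κ g y := by
  have haa : -a ≤ a := by linarith
  -- the tilted function
  obtain ⟨h, hh⟩ : ∃ h : ℝ → ℂ, h = fun u => ((g u * Real.exp (κ * u) : ℝ) : ℂ) *
    cexp (-(I * (u * y : ℝ))) := ⟨_, rfl⟩
  have hhc : Continuous h := by rw [hh]; fun_prop
  have hhs : HasCompactSupport h := by
    refine HasCompactSupport.intro (K := Set.Icc (-r) r) isCompact_Icc fun u hu => ?_
    have h3 : r < |u| := by
      by_contra hcon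
      exact hu (abs_le.1 (not_lt.1 hcon))
    rw [hh]
    simp only [hr u h3.le, zero_mul, Complex.ofReal_zero]
  have hhi : Integrable h := hhc.integrable_of_hasCompactSupport hhs
  have hpt : ∀ u : ℝ, (((1 / (2 * a) * ∫ s in (-a)..a, g (u + s)) * Real.exp (κ * u) : ℝ) : ℂ) *
      cexp (-(I * (u * y : ℝ))) = (1 / (2 * a) : ℝ) * ∫ s in Set.Ioc (-a) a,
        h (u + s) * cexp ((I * y - κ) * s) := by
    intro u
    rw [← intervalIntegral.integral_of_le haa]
    have e1 : ∀ s : ℝ, h (u + s) * cexp ((I * y - κ) * s) = (g (u + s) : ℂ) *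
        (((Real.exp (κ * u) : ℝ) : ℂ) * cexp (-(I * (u * y : ℝ)))) := by
      intro s
      rw [hh]
      simp only
      rw [Complex.ofReal_mul, Complex.ofReal_exp, Complex.ofReal_exp, mul_assoc, mul_assoc,
        ← Complex.exp_add, ← Complex.exp_add, ← Complex.exp_add]
      congr 2
      push_cast
      ring
    simp only [e1]
    rw [intervalIntegral.integral_mul_const, intervalIntegral.integral_ofReal]
    push_cast
    ring
  have hprod : Integrable (Function.uncurry fun (u s : ℝ) => h (u + s) * cexp ((I * y - κ) * s))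
      (volume.prod (volume.restrict (Set.Ioc (-a) a))) := by
    have h1 : Integrable (fun z : ℝ × ℝ => h z.1 * cexp ((I * y - κ) * z.2))
        (volume.prod (volume.restrict (Set.Ioc (-a) a))) := by
      refine Integrable.mul_prod (f := h) (g := fun s : ℝ => cexp ((I * y - κ) * s)) hhi ?_
      have h2 : Continuous fun s : ℝ => cexp ((I * (y : ℂ) - κ) * s) := by fun_prop
      exact (h2.integrableOn_Icc (a := -a) (b := a)).mono_set Set.Ioc_subset_Icc_self
    have h3 : MeasurePreserving (fun z : ℝ × ℝ => (z.1 + z.2, z.2))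
        (volume.prod (volume.restrict (Set.Ioc (-a) a)))
        (volume.prod (volume.restrict (Set.Ioc (-a) a))) := by
      have h4 : MeasurePreserving (fun z : ℝ × ℝ => (z.1, z.2 + z.1))
          ((volume.restrict (Set.Ioc (-a) a)).prod volume)
          ((volume.restrict (Set.Ioc (-a) a)).prod volume) :=
        (MeasurePreserving.id _).skew_product (g := fun s u => u + s) (by fun_prop)
          (Eventually.of_forall fun s => (measurePreserving_add_right volume s).map_eq)
      exact (Measure.measurePreserving_swap.comp h4).comp Measure.measurePreserving_swap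
    exact (h3.integrable_comp h1.aestronglyMeasurable).2 h1
  unfold ft
  simp only [hpt]
  rw [integral_const_mul, integral_integral_swap hprod]
  have e2 : ∀ s : ℝ, ∫ u : ℝ, h (u + s) * cexp ((I * y - κ) * s) =
      (∫ u : ℝ, h u) * cexp ((I * y - κ) * s) := by
    intro s
    rw [integral_mul_const, integral_add_right_eq_self]
  simp only [e2]
  rw [integral_const_mul, ← intervalIntegral.integral_of_le haa]
  unfold sk
  rw [hh]
  ring

theorem norm_e (u y : ℝ) : ‖cexp (-(I * (u * y : ℝ)))‖ = 1 := by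
  rw [show -(I * ((u * y : ℝ) : ℂ)) = ((-(u * y) : ℝ) : ℂ) * I by push_cast; ring]
  exact Complex.norm_exp_ofReal_mul_I _

/-- the integrand is dominated -/
theorem dom {g : ℝ → ℝ} (h01 : ∀ u, 0 ≤ g u ∧ g u ≤ 1) {r : ℝ} (hr : ∀ u, r ≤ |u| → g u = 0)
    (κ u y : ℝ) : ‖((g u * Real.exp (κ * u) : ℝ) : ℂ) * cexp (-(I * (u * y : ℝ)))‖ ≤
    (Set.Icc (-r) r).indicator (fun _ => Real.exp (r * |κ|)) u := by
  rw [norm_mul, norm_e, mul_one, Complex.norm_real, Real.norm_eq_abs, abs_mul, Real.abs_exp,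
    abs_of_nonneg (h01 u).1]
  by_cases hu : u ∈ Set.Icc (-r) r
  · rw [Set.indicator_of_mem hu]
    have h1 : Real.exp (κ * u) ≤ Real.exp (r * |κ|) := by
      refine Real.exp_le_exp.2 ?_
      calc κ * u ≤ |κ * u| := le_abs_self _
        _ = |κ| * |u| := abs_mul _ _
        _ ≤ |κ| * r := mul_le_mul_of_nonneg_left (abs_le.2 hu) (abs_nonneg _)
        _ = r * |κ| := mul_comm _ _
    calc g u * Real.exp (κ * u) ≤ 1 * Real.exp (r * |κ|) :=
          mul_le_mul (h01 u).2 h1 (Real.exp_pos _).le zero_le_one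
      _ = Real.exp (r * |κ|) := one_mul _
  · rw [Set.indicator_of_notMem hu]
    have h3 : r < |u| := by
      by_contra hcon
      exact hu (abs_le.1 (not_lt.1 hcon))
    rw [hr u h3.le, zero_mul]

theorem ind_int (r E : ℝ) : Integrable ((Set.Icc (-r) r).indicator (fun _ : ℝ => E)) := by
  refine (integrable_indicator_iff measurableSet_Icc).2 ?_
  exact integrableOn_const (by simp)

theorem ft_base {g : ℝ → ℝ} (h01 : ∀ u, 0 ≤ g u ∧ g u ≤ 1)
    (h0 : ∀ u, 3 / 4 ≤ |u| → g u = 0) (κ y : ℝ) : ‖ft κ g y‖ ≤ Real.exp (3 / 4 * |κ|) := by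
  unfold ft
  rw [norm_mul, Complex.norm_real, Real.norm_of_nonneg (by positivity)]
  have h1 := norm_integral_le_of_norm_le (ind_int (3 / 4) (Real.exp (3 / 4 * |κ|)))
    (Eventually.of_forall fun u => dom h01 h0 κ u y)
  rw [integral_indicator_const _ measurableSet_Icc, Real.volume_real_Icc_of_le (by norm_num),
    smul_eq_mul] at h1
  have hpi := Real.pi_gt_three
  have h2 : 1 / (2 * Real.pi) ≤ 1 / 2 := by
    apply one_div_le_one_div_of_le (by norm_num)
    linarith
  calc 1 / (2 * Real.pi) * _ ≤ 1 / 2 * ((3 / 4 - -(3 / 4)) * Real.exp (3 / 4 * |κ|)) :=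
        mul_le_mul h2 h1 (norm_nonneg _) (by norm_num)
    _ ≤ Real.exp (3 / 4 * |κ|) := by
        have := Real.exp_pos (3 / 4 * |κ|)
        linarith

theorem sj_succ (J : ℕ) : sj (J + 1) = sj J + aj J := by
  unfold sj
  rw [Finset.sum_range_succ]

section

variable {g : ℝ → ℝ} (hg : Continuous g) (h01 : ∀ u, 0 ≤ g u ∧ g u ≤ 1)
  (h1 : ∀ u, |u| ≤ 1 / 2 → g u = 1) (h0 : ∀ u, 3 / 4 ≤ |u| → g u = 0)

include hg h01 h1 h0

theorem gg_supp (J : ℕ) (u : ℝ) (hu : 7 / 8 ≤ |u|) : gg g J u = 0 :=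
  (gg_props hg h01 h1 h0 J).2.2 u (by have := sj_le J; linarith)

theorem ft_succ (κ : ℝ) (J : ℕ) (y : ℝ) :
    ft κ (gg g (J + 1)) y = sk κ (aj J) y * ft κ (gg g J) y :=
  ft_step κ (gg_cont hg J) (gg_supp hg h01 h1 h0 J) (aj_pos J) y

theorem ft_small (κ y : ℝ) (J : ℕ) (h : ∀ j < J, 3 ≤ aj j * |y|) :
    ‖ft κ (gg g J) y‖ ≤ Real.exp ((3 / 4 + sj J) * |κ|) * Real.exp (-(J : ℝ)) := by
  induction J with
  | zero =>
    have e : sj 0 = 0 := by simp [sj]
    rw [e, add_zero, Nat.cast_zero, neg_zero, Real.exp_zero, mul_one]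
    exact ft_base h01 h0 κ y
  | succ J ih =>
    have h2 := ih fun j hj => h j (by omega)
    rw [ft_succ hg h01 h1 h0, norm_mul]
    have h3 := sk_small κ (aj_pos J) (h J (by omega))
    calc ‖sk κ (aj J) y‖ * ‖ft κ (gg g J) y‖ ≤ (Real.exp (aj J * |κ|) * Real.exp (-1)) *
          (Real.exp ((3 / 4 + sj J) * |κ|) * Real.exp (-(J : ℝ))) :=
          mul_le_mul h3 h2 (norm_nonneg _) (by positivity)
      _ = Real.exp ((3 / 4 + sj (J + 1)) * |κ|) * Real.exp (-((J + 1 : ℕ) : ℝ)) := by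
          rw [← Real.exp_add, ← Real.exp_add, ← Real.exp_add, ← Real.exp_add]
          congr 1
          rw [sj_succ]
          push_cast
          ring

theorem ft_more (κ y : ℝ) (J m : ℕ) (h : ∀ j < J, 3 ≤ aj j * |y|) :
    ‖ft κ (gg g (J + m)) y‖ ≤ Real.exp ((3 / 4 + sj (J + m)) * |κ|) * Real.exp (-(J : ℝ)) := by
  induction m with
  | zero => exact ft_small hg h01 h1 h0 κ y J h
  | succ m ih =>
    rw [← add_assoc, ft_succ hg h01 h1 h0, norm_mul]
    calc ‖sk κ (aj (J + m)) y‖ * ‖ft κ (gg g (J + m)) y‖ ≤ Real.exp (aj (J + m) * |κ|) *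
          (Real.exp ((3 / 4 + sj (J + m)) * |κ|) * Real.exp (-(J : ℝ))) :=
          mul_le_mul (sk_norm κ y (aj_pos _)) ih (norm_nonneg _) (by positivity)
      _ = Real.exp ((3 / 4 + sj (J + m + 1)) * |κ|) * Real.exp (-(J : ℝ)) := by
          rw [← Real.exp_add, ← Real.exp_add, ← Real.exp_add]
          congr 1
          rw [sj_succ]
          ring

theorem ft_lim {P : ℝ → ℝ} (hP : ∀ u, Tendsto (fun J => gg g J u) atTop (𝓝 (P u))) (κ y : ℝ) :
    Tendsto (fun J => ft κ (gg g J) y) atTop (𝓝 (ft κ P y)) := by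
  unfold ft
  refine Tendsto.const_mul _ ?_
  refine tendsto_integral_of_dominated_convergence
    ((Set.Icc (-(7 / 8 : ℝ)) (7 / 8)).indicator (fun _ => Real.exp (7 / 8 * |κ|))) ?_
    (ind_int _ _) ?_ ?_
  · intro J
    apply Continuous.aestronglyMeasurable
    have := gg_cont hg J
    fun_prop
  · intro J
    exact Eventually.of_forall fun u =>
      dom (gg_props hg h01 h1 h0 J).1 (gg_supp hg h01 h1 h0 J) κ u y
  · refine Eventually.of_forall fun u => ?_
    apply Tendsto.mul_const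
    exact (Complex.continuous_ofReal.tendsto _).comp ((hP u).mul_const _)

theorem ft_decay {P : ℝ → ℝ} (hP : ∀ u, Tendsto (fun J => gg g J u) atTop (𝓝 (P u))) (κ y : ℝ) :
    ‖ft κ P y‖ ≤ Real.exp |κ| * Real.exp 2 *
      Real.exp (-((1 / 48) ^ (2 / 3 : ℝ) * |y| ^ (2 / 3 : ℝ))) := by
  set X : ℝ := (|y| / 48) ^ (2 / 3 : ℝ) with hX
  have hX0 : 0 ≤ X := by positivity
  have e1 : (1 / 48 : ℝ) ^ (2 / 3 : ℝ) * |y| ^ (2 / 3 : ℝ) = X := by
    rw [hX, ← Real.mul_rpow (by norm_num) (abs_nonneg y)]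
    congr 1
    ring
  rw [e1]
  set J : ℕ := ⌊X⌋₊ - 1 with hJ
  have hJX : X - 2 ≤ J := by
    have h1 := Nat.lt_floor_add_one X
    have h2 : ((⌊X⌋₊ : ℕ) : ℝ) ≤ (J : ℝ) + 1 := by
      have : ⌊X⌋₊ ≤ J + 1 := by omega
      exact_mod_cast this
    linarith
  have hJs : ∀ j < J, 3 ≤ aj j * |y| := by
    intro j hj
    have h1 : ((j : ℝ) + 2) ≤ X := by
      have h2 : j + 2 ≤ ⌊X⌋₊ := by omega
      have h3 : ((j + 2 : ℕ) : ℝ) ≤ ⌊X⌋₊ := by exact_mod_cast h2
      have h4 := Nat.floor_le hX0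
      push_cast at h3
      linarith
    have hj0 : (0 : ℝ) ≤ j := Nat.cast_nonneg j
    set r := √((j : ℝ) + 2) with hr
    have hr0 : 0 < r := Real.sqrt_pos.2 (by linarith)
    have hr2 : r ^ 2 = j + 2 := Real.sq_sqrt (by linarith)
    have h5 : r ^ 3 ≤ |y| / 48 := by
      have h6 : r ^ 3 = (r ^ 2) ^ (3 / 2 : ℝ) := by
        rw [← Real.rpow_natCast r 2, ← Real.rpow_mul hr0.le, ← Real.rpow_natCast r 3]
        norm_num
      have h7 : X ^ (3 / 2 : ℝ) = |y| / 48 := by
        rw [hX, ← Real.rpow_mul (by positivity)]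
        norm_num
      rw [h6, ← h7, hr2]
      exact Real.rpow_le_rpow (by linarith) h1 (by norm_num)
    have h8 := aj_lower j
    rw [← hr] at h8
    calc (3 : ℝ) = 1 / (16 * r ^ 3) * (48 * r ^ 3) := by
          field_simp
          norm_num
      _ ≤ aj j * |y| := mul_le_mul h8 (by linarith) (by positivity) (aj_pos j).le
  have hlim := ((ft_lim hg h01 h1 h0 hP κ y).norm.comp (tendsto_add_atTop_nat J))
  refine le_of_tendsto hlim (Eventually.of_forall fun m => ?_)
  simp only [Function.comp]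
  rw [add_comm m J]
  refine (ft_more hg h01 h1 h0 κ y J m hJs).trans ?_
  rw [mul_assoc, ← Real.exp_add 2]
  have h2 : Real.exp ((3 / 4 + sj (J + m)) * |κ|) ≤ Real.exp |κ| := by
    refine Real.exp_le_exp.2 ?_
    have := sj_le (J + m)
    have h3 := abs_nonneg κ
    nlinarith
  exact mul_le_mul h2 (Real.exp_le_exp.2 (by linarith)) (Real.exp_pos _).le (Real.exp_pos _).le

end

/-- integrability of the decay function -/
theorem dec_int {c : ℝ} (hc : 0 < c) : Integrable fun y : ℝ => Real.exp (-(c * |y| ^ (2 / 3 : ℝ))) := by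
  obtain ⟨k, hk⟩ : ∃ k, k = Real.sqrt (c ^ 3 / 6) := ⟨_, rfl⟩
  have hk0 : 0 < k := by rw [hk]; exact Real.sqrt_pos.2 (by positivity)
  have hk2 : k ^ 2 = c ^ 3 / 6 := by rw [hk]; exact Real.sq_sqrt (by positivity)
  have h1 : Integrable fun y : ℝ => (1 + (k * y) ^ 2)⁻¹ :=
    integrable_inv_one_add_sq.comp_mul_left' hk0.ne'
  refine h1.mono' ?_ (Eventually.of_forall fun y => ?_)
  · apply Continuous.aestronglyMeasurable
    refine Real.continuous_exp.comp (Continuous.neg (continuous_const.mul ?_))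
    exact continuous_abs.rpow_const fun y => Or.inr (by norm_num)
  · rw [Real.norm_of_nonneg (Real.exp_pos _).le, Real.exp_neg]
    refine inv_anti₀ (by positivity) ?_
    obtain ⟨x, hx⟩ : ∃ x, x = c * |y| ^ (2 / 3 : ℝ) := ⟨_, rfl⟩
    have hx0 : 0 ≤ x := by rw [hx]; positivity
    have h2 : x ^ 3 = c ^ 3 * y ^ 2 := by
      rw [hx, mul_pow, ← Real.rpow_natCast (|y| ^ (2 / 3 : ℝ)), ← Real.rpow_mul (abs_nonneg y)]
      norm_num
    have h3 := Real.sum_le_exp_of_nonneg hx0 4
    simp only [Finset.sum_range_succ, Finset.sum_range_zero] at h3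
    norm_num [Nat.factorial] at h3
    rw [← hx]
    have h4 : (k * y) ^ 2 = x ^ 3 / 6 := by
      rw [mul_pow, hk2, h2]; ring
    rw [h4]
    have h5 : 0 ≤ x ^ 2 := sq_nonneg x
    linarith

theorem t_GEV2 : S_GEV2 := by
  obtain ⟨g, P, q, K, hg, h01, h1, h0, hGev, hK, hlim⟩ := gev_ext
  obtain ⟨C, hC⟩ : ∃ C, C = max (K * Real.exp 2) (Real.exp 2) := ⟨_, rfl⟩
  have hC1 : K * Real.exp 2 ≤ C := by rw [hC]; exact le_max_left _ _
  have hC2 : Real.exp 2 ≤ C := by rw [hC]; exact le_max_right _ _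
  have hPb : ∀ u, 0 ≤ P u ∧ P u ≤ 1 := hGev.bd
  have hPs : ∀ u, 7 / 8 ≤ |u| → P u = 0 := by
    intro u hu
    refine tendsto_nhds_unique (hlim u) ?_
    have h2 : (fun J => gg g J u) = fun _ => (0 : ℝ) := by
      funext J
      exact gg_supp hg h01 h1 h0 J u hu
    rw [h2]
    exact tendsto_const_nhds
  have hqi : Integrable q := by
    refine ((dec_int hGev.cpos).const_mul (K * Real.exp 2)).mono' hGev.cont.aestronglyMeasurable
      (Eventually.of_forall fun y => ?_)
    rw [Real.norm_eq_abs]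
    exact hGev.dec y
  have hPc : Continuous P := by
    have h2 : Continuous fun u : ℝ => ∫ y : ℝ, (q y : ℂ) * cexp (I * (u * y : ℝ)) := by
      refine continuous_of_dominated (bound := fun y => |q y|) (fun u => ?_) (fun u => ?_) hqi.abs ?_
      · apply Continuous.aestronglyMeasurable
        have := hGev.cont
        fun_prop
      · refine Eventually.of_forall fun y => ?_
        rw [norm_mul, Pool.Agent.Q210.UM.norm_exp, mul_one, Complex.norm_real, Real.norm_eq_abs]
      · refine Eventually.of_forall fun y => ?_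
        fun_prop
    have h3 : P = fun u => (∫ y : ℝ, (q y : ℂ) * cexp (I * (u * y : ℝ))).re := by
      funext u
      rw [← hGev.rep u, Complex.ofReal_re]
    rw [h3]
    exact Complex.continuous_re.comp h2
  refine ⟨P, q, (1 / 48) ^ (2 / 3 : ℝ), C, ⟨hGev.cpos, hGev.flat, hGev.supp, hGev.bd, hGev.cont,
    fun y => (hGev.dec y).trans (mul_le_mul_of_nonneg_right hC1 (Real.exp_pos _).le), hGev.rep⟩,
    fun κ => ⟨ft κ P, ?_⟩⟩
  have hdec : ∀ y, ‖ft κ P y‖ ≤ C * Real.exp |κ| *
      Real.exp (-((1 / 48) ^ (2 / 3 : ℝ) * |y| ^ (2 / 3 : ℝ))) := by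
    intro y
    refine (ft_decay hg h01 h1 h0 hlim κ y).trans ?_
    refine mul_le_mul_of_nonneg_right ?_ (Real.exp_pos _).le
    rw [mul_comm C]
    exact mul_le_mul_of_nonneg_left hC2 (Real.exp_pos _).le
  -- the tilted function
  obtain ⟨H, hH⟩ : ∃ H : ℝ → ℂ, H = fun u => ((P u * Real.exp (κ * u) : ℝ) : ℂ) := ⟨_, rfl⟩
  have hHc : Continuous H := by rw [hH]; fun_prop
  have hHs : HasCompactSupport H := by
    refine HasCompactSupport.intro (K := Set.Icc (-(7 / 8)) (7 / 8)) isCompact_Icc fun u hu => ?_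
    have h3 : 7 / 8 < |u| := by
      by_contra hcon
      exact hu (abs_le.1 (not_lt.1 hcon))
    rw [hH]
    simp only [hPs u h3.le, zero_mul, Complex.ofReal_zero]
  have hHi : Integrable H := hHc.integrable_of_hasCompactSupport hHs
  have hftc : Continuous (ft κ P) := by
    unfold ft
    refine continuous_const.mul ?_
    refine continuous_of_dominated (bound := (Set.Icc (-(7 / 8 : ℝ)) (7 / 8)).indicator
      (fun _ => Real.exp (7 / 8 * |κ|))) (fun y => ?_) (fun y => ?_) (ind_int _ _) ?_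
    · apply Continuous.aestronglyMeasurable
      fun_prop
    · exact Eventually.of_forall fun u => dom hPb hPs κ u y
    · refine Eventually.of_forall fun u => ?_
      fun_prop
  refine ⟨hGev.cpos, fun u hu => ?_, hftc, hdec, fun u => ?_⟩
  · unfold til
    rw [hGev.supp u hu, zero_mul]
  · have hpi : 0 < 2 * Real.pi := by positivity
    have hF : ∀ w : ℝ, 𝓕 H w = (2 * Real.pi : ℝ) * ft κ P (2 * Real.pi * w) := by
      intro w
      rw [Real.fourier_real_eq_integral_exp_smul]
      unfold ft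
      rw [← mul_assoc, ← Complex.ofReal_mul, show 2 * Real.pi * (1 / (2 * Real.pi)) = 1 by
        field_simp, Complex.ofReal_one, one_mul]
      refine integral_congr_ae (Eventually.of_forall fun v => ?_)
      simp only
      rw [hH, smul_eq_mul, mul_comm]
      congr 2
      push_cast
      ring
    have hfti : Integrable (ft κ P) :=
      ((dec_int hGev.cpos).const_mul (C * Real.exp |κ|)).mono' hftc.aestronglyMeasurable
        (Eventually.of_forall hdec)
    have hFi : Integrable (𝓕 H) := by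
      have h2 : 𝓕 H = fun w => ((2 * Real.pi : ℝ) : ℂ) * ft κ P (2 * Real.pi * w) := by
        funext w
        exact hF w
      rw [h2]
      exact (hfti.comp_mul_left' hpi.ne').const_mul _
    have h3 := congrFun (Continuous.fourierInv_fourier_eq hHc hHi hFi) u
    have h4 : (til P κ u : ℂ) = H u := by rw [hH]; rfl
    rw [h4, ← h3, Real.fourierInv_eq']
    have h5 := Measure.integral_comp_mul_left
      (fun y : ℝ => ft κ P y * cexp (I * (u * y : ℝ))) (2 * Real.pi)
    rw [abs_of_pos (by positivity)] at h5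
    have h6 : ∫ y : ℝ, ft κ P y * cexp (I * (u * y : ℝ)) = (2 * Real.pi : ℝ) •
        ∫ x : ℝ, ft κ P (2 * Real.pi * x) * cexp (I * (u * (2 * Real.pi * x) : ℝ)) := by
      rw [h5, smul_smul, mul_inv_cancel₀ hpi.ne', one_smul]
    rw [h6, ← integral_smul]
    congr 1
    funext w
    rw [hF, smul_eq_mul, Complex.real_smul]
    have e5 : (↑(2 * Real.pi * inner ℝ w u) : ℂ) * I = I * (u * (2 * Real.pi * w) : ℝ) := by
      simp only [RCLike.inner_apply, conj_trivial]
      push_cast
      ring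
    rw [e5]
    ring

end

end Pool.Agent.Q175.UM
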