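import Pool.Agent.Q97.UM.Stm4
import Pool.Agent.Q84.UM.R2

set_option autoImplicit false

/-! Job UM-R2K (helper175): the mollified second moment for all tilts. -/

namespace Pool.Agent.Q175.UM

open Filter Topology MeasureTheory Complex
open Pool.Agent.Q97.UM
open Pool.Agent.Q84.UM (cv_supp cv_norm coeff_le dp_shift dp_mul N2_shift N2_nonneg norm_dp_le
  zt_cont zt_norm integrand_cont dp_cont t_MVL)

noncomputable section

section til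

variable {Pw q : ℝ → ℝ} {c₀ C₀ : ℝ}

theorem et_til_norm (hG : Gev Pw q c₀ C₀) (hA : S_AL) (κ : ℝ) (Y n : ℕ) :
    ‖et (til Pw κ) Y n‖ ≤ Real.exp |κ| := by
  unfold et til
  obtain ⟨u, hu⟩ : ∃ u, u = Real.log n / Real.log Y := ⟨_, rfl⟩
  rw [← hu, Complex.norm_real, Real.norm_eq_abs, abs_mul, abs_mul, Real.abs_exp]
  have h1 := hA.2.2 n
  have h2 := hG.bd u
  rw [abs_of_nonneg h2.1]
  by_cases h3 : 1 ≤ |u|
  · rw [hG.supp u h3]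
    simp only [zero_mul, mul_zero]
    exact (Real.exp_pos _).le
  · push Not at h3
    have h4 : Real.exp (κ * u) ≤ Real.exp |κ| := by
      refine Real.exp_le_exp.2 ?_
      calc κ * u ≤ |κ * u| := le_abs_self _
        _ = |κ| * |u| := abs_mul _ _
        _ ≤ |κ| * 1 := mul_le_mul_of_nonneg_left h3.le (abs_nonneg _)
        _ = |κ| := mul_one _
    have h5 : Pw u * Real.exp (κ * u) ≤ 1 * Real.exp |κ| :=
      mul_le_mul h2.2 h4 (Real.exp_pos _).le zero_le_one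
    calc |al n| * (Pw u * Real.exp (κ * u)) ≤ 1 * (1 * Real.exp |κ|) :=
          mul_le_mul h1 h5 (mul_nonneg h2.1 (Real.exp_pos _).le) zero_le_one
      _ = Real.exp |κ| := by ring

theorem et_til_supp (hG : Gev Pw q c₀ C₀) (κ : ℝ) {Y : ℕ} (hY : 2 ≤ Y) (n : ℕ) (hn : Y < n) :
    et (til Pw κ) Y n = 0 := by
  unfold et til
  have h1 : 0 < Real.log Y := Real.log_pos (by exact_mod_cast (by omega : 1 < Y))
  have h2 : Real.log Y ≤ Real.log n := Real.log_le_log (by exact_mod_cast (by omega : 0 < Y))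
    (by exact_mod_cast hn.le)
  have h3 : 1 ≤ |Real.log n / Real.log Y| := by
    rw [abs_of_nonneg (div_nonneg (h1.le.trans h2) h1.le), le_div_iff₀ h1]
    linarith
  rw [hG.supp _ h3]
  simp

theorem eta_til_norm (hG : Gev Pw q c₀ C₀) (hA : S_AL) (κ : ℝ) (Y : ℕ) (t : ℝ) :
    ‖eta (til Pw κ) Y t‖ ≤ Y * Real.exp |κ| := by
  unfold Pool.Agent.Q97.UM.eta
  refine (norm_dp_le _ _ _).trans ?_
  have h1 : ∀ n ∈ Finset.Icc 1 Y, ‖et (til Pw κ) Y n‖ * (Real.sqrt n)⁻¹ ≤ Real.exp |κ| := by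
    intro n hn
    rw [Finset.mem_Icc] at hn
    have h2 : (1 : ℝ) ≤ Real.sqrt n := by
      rw [show (1 : ℝ) = Real.sqrt 1 by simp]
      exact Real.sqrt_le_sqrt (by exact_mod_cast hn.1)
    calc ‖et (til Pw κ) Y n‖ * (Real.sqrt n)⁻¹ ≤ Real.exp |κ| * 1 :=
          mul_le_mul (et_til_norm hG hA κ Y n) (inv_le_one_of_one_le₀ h2) (by positivity)
            (Real.exp_pos _).le
      _ = Real.exp |κ| := mul_one _
  refine (Finset.sum_le_sum h1).trans ?_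
  simp

end til

/-- the moment at one scale -/
theorem oneTS {W : ℝ → ℝ} {C₁ ϑ C T' Λ β : ℝ} (hM : Moll W C₁) (hC₁ : 0 ≤ C₁) (hC : 1 ≤ C)
    (hT : 0 < T') (hβ : 0 ≤ β)
    (hTS : ∀ M : ℕ, (M : ℝ) ≤ T' ^ ϑ → ∀ (c : ℕ → ℂ) (lam : ℝ), (∀ n, ‖c n‖ ≤ lam) →
      ∫ t in (T' / 2)..(3 * T'), ‖riemannZeta (1 / 2 + t * I)‖ ^ 2 *
        ‖∑ n ∈ Finset.Icc 1 M, c n * (n : ℂ) ^ (-(1 / 2 + t * I))‖ ^ 2 ≤
      C * T' * (Real.log T' * (QF M c).re + T' ^ (-ϑ) * lam ^ 2))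
    {Y N : ℕ} (hY : 2 ≤ Y) (hY3 : (Y : ℝ) ^ 5 ≤ T' ^ ϑ) (hΛ : Real.log T' ≤ Λ) (hΛ0 : 0 ≤ Real.log T')
    (he1 : ∀ n, ‖et W Y n‖ ≤ β) (he2 : ∀ n, Y < n → et W Y n = 0)
    (hN : N ≤ Y) (b : ℕ → ℂ) (hb : ∀ n, b n ≠ 0 → 1 ≤ n ∧ n ≤ N) :
    ∫ s in (T' / 2)..(3 * T'), ‖zt s‖ ^ 2 * ‖dp (N * Y ^ 2) (cv b (cv (et W Y) (et W Y))) s‖ ^ 2 ≤
      C * T' * ((Λ * (C₁ / Real.log Y) + β ^ 4) * N2 N b) := by
  have hb2 : ∀ n, N < n → b n = 0 := by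
    intro n hn
    by_contra h
    have := (hb n h).2
    omega
  have hn0 := N2_nonneg N b
  obtain ⟨c, hc⟩ : ∃ c : ℕ → ℂ, c = cv b (cv (et W Y) (et W Y)) := ⟨_, rfl⟩
  have hY0 : (0 : ℝ) ≤ Y := Nat.cast_nonneg Y
  have hY1 : (1 : ℝ) ≤ Y := by exact_mod_cast (by omega : 1 ≤ Y)
  have hNY : (N : ℝ) ≤ Y := by exact_mod_cast hN
  have hM1 : ((N * Y ^ 2 : ℕ) : ℝ) ≤ T' ^ ϑ := by
    push_cast
    calc (N : ℝ) * (Y : ℝ) ^ 2 ≤ Y * (Y : ℝ) ^ 2 := mul_le_mul_of_nonneg_right hNY (by positivity)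
      _ = (Y : ℝ) ^ 3 := by ring
      _ ≤ (Y : ℝ) ^ 5 := pow_le_pow_right₀ hY1 (by norm_num)
      _ ≤ T' ^ ϑ := hY3
  obtain ⟨lam, hlam⟩ : ∃ lam : ℝ, lam = N * (Real.sqrt (N * N2 N b) * (Y * (β * β))) := ⟨_, rfl⟩
  have hcl : ∀ n, ‖c n‖ ≤ lam := by
    intro n
    rw [hc, hlam]
    refine cv_norm hb2 (Real.sqrt_nonneg _) (by positivity) ?_ ?_ n
    · intro m h1 h2
      exact coeff_le b h1 h2
    · intro m _
      exact cv_norm (c := et W Y) he2 hβ hβ (fun n _ _ => he1 n) (fun n _ => he1 n) m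
  have hlam2 : T' ^ (-ϑ) * lam ^ 2 ≤ β ^ 4 * N2 N b := by
    have h1 : lam ^ 2 = (N : ℝ) ^ 3 * (Y : ℝ) ^ 2 * (β ^ 4 * N2 N b) := by
      rw [hlam, mul_pow, mul_pow, Real.sq_sqrt (mul_nonneg (Nat.cast_nonneg N) hn0)]
      ring
    have h2 : (N : ℝ) ^ 3 * (Y : ℝ) ^ 2 ≤ T' ^ ϑ := by
      calc (N : ℝ) ^ 3 * (Y : ℝ) ^ 2 ≤ (Y : ℝ) ^ 3 * (Y : ℝ) ^ 2 :=
            mul_le_mul_of_nonneg_right (pow_le_pow_left₀ (Nat.cast_nonneg N) hNY 3) (by positivity)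
        _ = (Y : ℝ) ^ 5 := by ring
        _ ≤ T' ^ ϑ := hY3
    rw [h1, ← mul_assoc]
    have h3 : T' ^ (-ϑ) * ((N : ℝ) ^ 3 * (Y : ℝ) ^ 2) ≤ 1 := by
      calc T' ^ (-ϑ) * ((N : ℝ) ^ 3 * (Y : ℝ) ^ 2) ≤ T' ^ (-ϑ) * T' ^ ϑ :=
            mul_le_mul_of_nonneg_left h2 (by positivity)
        _ = 1 := by rw [← Real.rpow_add hT]; simp
    have h4 : 0 ≤ β ^ 4 * N2 N b := by positivity
    calc T' ^ (-ϑ) * ((N : ℝ) ^ 3 * (Y : ℝ) ^ 2) * (β ^ 4 * N2 N b) ≤ 1 * (β ^ 4 * N2 N b) :=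
          mul_le_mul_of_nonneg_right h3 h4
      _ = β ^ 4 * N2 N b := one_mul _
  have hQ : Real.log T' * (QF (N * Y ^ 2) c).re ≤ Λ * (C₁ / Real.log Y) * N2 N b := by
    have h1 := hM Y N b hY hN hb
    rw [← hc] at h1
    have hlY : 0 ≤ Real.log Y := Real.log_nonneg hY1
    calc Real.log T' * (QF (N * Y ^ 2) c).re ≤ Real.log T' * (C₁ / Real.log Y * N2 N b) :=
          mul_le_mul_of_nonneg_left h1 hΛ0
      _ ≤ Λ * (C₁ / Real.log Y * N2 N b) := mul_le_mul_of_nonneg_right hΛ (by positivity)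
      _ = Λ * (C₁ / Real.log Y) * N2 N b := by ring
  have hmain := hTS (N * Y ^ 2) hM1 c lam hcl
  rw [← hc]
  refine (le_of_eq (by rfl)).trans (hmain.trans ?_)
  have h1 : Real.log T' * (QF (N * Y ^ 2) c).re + T' ^ (-ϑ) * lam ^ 2 ≤
      (Λ * (C₁ / Real.log Y) + β ^ 4) * N2 N b := by linarith
  exact mul_le_mul_of_nonneg_left h1 (by positivity)

/-- the trivial mean value on `[T/4, 4T]` -/
theorem mv4 {T : ℝ} (hT : 64 ≤ T) {N : ℕ} (hN : (N : ℝ) ≤ (T / 4) ^ (1 / 4 : ℝ)) (b : ℕ → ℂ) :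
    ∫ t in (T / 4)..(4 * T), ‖dp N b t‖ ^ 2 ≤ 8 * T * N2 N b := by
  have hi : ∀ a c : ℝ, IntervalIntegrable (fun t => ‖dp N b t‖ ^ 2) volume a c := fun a c => by
    have := dp_cont N b
    apply Continuous.intervalIntegrable
    fun_prop
  have hN' : ∀ T' : ℝ, T / 4 ≤ T' → (N : ℝ) ≤ T' ^ (1 / 4 : ℝ) := fun T' h =>
    hN.trans (Real.rpow_le_rpow (by linarith) h (by norm_num))
  have h1 := (t_MVL (T / 4) (by linarith) N (hN' _ le_rfl) b).2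
  have h2 := (t_MVL (T / 2) (by linarith) N (hN' _ (by linarith)) b).2
  have h3 := (t_MVL T (by linarith) N (hN' _ (by linarith)) b).2
  have h4 := (t_MVL (2 * T) (by linarith) N (hN' _ (by linarith)) b).2
  have e1 : ∫ t in (T / 4)..(4 * T), ‖dp N b t‖ ^ 2 =
      (∫ t in (T / 4)..(2 * (T / 4)), ‖dp N b t‖ ^ 2) + (∫ t in (T / 2)..(2 * (T / 2)), ‖dp N b t‖ ^ 2) +
      (∫ t in T..(2 * T), ‖dp N b t‖ ^ 2) + ∫ t in (2 * T)..(2 * (2 * T)), ‖dp N b t‖ ^ 2 := by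
    rw [show 2 * (T / 4) = T / 2 by ring, show 2 * (T / 2) = T by ring,
      show 2 * (2 * T) = 4 * T by ring,
      intervalIntegral.integral_add_adjacent_intervals (hi _ _) (hi _ _),
      intervalIntegral.integral_add_adjacent_intervals (hi _ _) (hi _ _),
      intervalIntegral.integral_add_adjacent_intervals (hi _ _) (hi _ _)]
  rw [e1]
  have hn0 := N2_nonneg N b
  have h5 : 0 ≤ T * N2 N b := mul_nonneg (by linarith) hn0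
  have e2 : 2 * (T / 4) * N2 N b = 1 / 2 * (T * N2 N b) := by ring
  have e3 : 2 * (T / 2) * N2 N b = T * N2 N b := by ring
  have e4 : 2 * T * N2 N b = 2 * (T * N2 N b) := by ring
  have e5 : 2 * (2 * T) * N2 N b = 4 * (T * N2 N b) := by ring
  have e6 : 8 * T * N2 N b = 8 * (T * N2 N b) := by ring
  rw [e2] at h1
  rw [e3] at h2
  rw [e4] at h3
  rw [e5] at h4
  rw [e6]
  linarith

/-- small shifts -/
theorem smallK {W : ℝ → ℝ} {C₁ ϑ C T β : ℝ} (hM : Moll W C₁) (hC₁ : 0 ≤ C₁) (hC : 1 ≤ C)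
    (hϑ : 0 < ϑ) (hT : 64 ≤ T) (hβ : 0 ≤ β)
    (hTS : ∀ T' : ℝ, T / 4 ≤ T' → ∀ M : ℕ, (M : ℝ) ≤ T' ^ ϑ → ∀ (c : ℕ → ℂ) (lam : ℝ),
      (∀ n, ‖c n‖ ≤ lam) →
      ∫ t in (T' / 2)..(3 * T'), ‖riemannZeta (1 / 2 + t * I)‖ ^ 2 *
        ‖∑ n ∈ Finset.Icc 1 M, c n * (n : ℂ) ^ (-(1 / 2 + t * I))‖ ^ 2 ≤
      C * T' * (Real.log T' * (QF M c).re + T' ^ (-ϑ) * lam ^ 2))
    {Y N : ℕ} (hY : 2 ≤ Y) (hY2 : (Y : ℝ) ^ 5 ≤ (T / 4) ^ ϑ) (hY3 : ϑ / 40 * Real.log T ≤ Real.log Y)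
    (he1 : ∀ n, ‖et W Y n‖ ≤ β) (he2 : ∀ n, Y < n → et W Y n = 0)
    (hN : N ≤ Y) (b : ℕ → ℂ) (hb : ∀ n, b n ≠ 0 → 1 ≤ n ∧ n ≤ N) (y : ℝ) (hy : |y| ≤ T / 8) :
    ∫ t in (T / 4)..(4 * T), ‖dp N b t‖ ^ 2 * (‖zt (t + y)‖ * ‖eta W Y (t + y)‖ ^ 2) ^ 2 ≤
      C * 2 * (80 * C₁ / ϑ + β ^ 4) * T * N2 N b := by
  obtain ⟨b', hb'⟩ : ∃ b' : ℕ → ℂ, b' = fun n => b n * (n : ℂ) ^ (y * I) := ⟨_, rfl⟩
  have hb1 : ∀ n, b' n ≠ 0 → 1 ≤ n ∧ n ≤ N := by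
    intro n hn
    refine hb n fun h => hn ?_
    rw [hb']
    simp only [h, zero_mul]
  have hb2 : ∀ n, N < n → b' n = 0 := by
    intro n hn
    by_contra h
    have := (hb1 n h).2
    omega
  have hN2 : N2 N b' = N2 N b := by rw [hb']; exact N2_shift N b y
  have hn0 := N2_nonneg N b
  obtain ⟨c, hc⟩ : ∃ c : ℕ → ℂ, c = cv b' (cv (et W Y) (et W Y)) := ⟨_, rfl⟩
  have hee := cv_supp he2 he2
  have key : ∀ s : ℝ, dp N b (s - y) * eta W Y s ^ 2 = dp (N * Y ^ 2) c s := by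
    intro s
    rw [dp_shift, ← hb', hc, sq, sq]
    unfold Pool.Agent.Q97.UM.eta
    rw [dp_mul Y Y _ _ s he2 he2, dp_mul N (Y * Y) b' _ s hb2 hee]
  have hT0 : 0 < T := by linarith
  have hlog : ∀ T' : ℝ, T / 4 ≤ T' → T' ≤ 2 * T → Real.log T' ≤ 2 * Real.log T ∧
      0 ≤ Real.log T' := by
    intro T' h1 h2
    refine ⟨?_, Real.log_nonneg (by linarith)⟩
    calc Real.log T' ≤ Real.log (T ^ 2) := Real.log_le_log (by linarith) (by nlinarith)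
      _ = 2 * Real.log T := by rw [Real.log_pow]; norm_num
  have hlT : 0 < Real.log T := Real.log_pos (by linarith)
  have hlY : 0 < Real.log Y := lt_of_lt_of_le (by positivity) hY3
  have hpar : 2 * Real.log T * (C₁ / Real.log Y) ≤ 80 * C₁ / ϑ := by
    rw [← mul_div_assoc, div_le_div_iff₀ hlY hϑ]
    have h1 := mul_le_mul_of_nonneg_left hY3 hC₁
    nlinarith
  have hone : ∀ T' : ℝ, T / 4 ≤ T' → T' ≤ 2 * T →
      ∫ s in (T' / 2)..(3 * T'), ‖zt s‖ ^ 2 * ‖dp (N * Y ^ 2) c s‖ ^ 2 ≤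
      C * T' * ((80 * C₁ / ϑ + β ^ 4) * N2 N b) := by
    intro T' h1 h2
    have h3 := oneTS (β := β) (Λ := 2 * Real.log T) hM hC₁ hC (by linarith : 0 < T') hβ (hTS T' h1)
      hY (hY2.trans (Real.rpow_le_rpow (by linarith) h1 hϑ.le)) (hlog T' h1 h2).1
      (hlog T' h1 h2).2 he1 he2 hN b' hb1
    rw [← hc, hN2] at h3
    refine h3.trans ?_
    refine mul_le_mul_of_nonneg_left ?_ (by have : 0 < T' := by linarith
                                            positivity)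
    exact mul_le_mul_of_nonneg_right (by linarith) hn0
  have hsub : ∫ t in (T / 4)..(4 * T), ‖dp N b t‖ ^ 2 *
      (‖zt (t + y)‖ * ‖eta W Y (t + y)‖ ^ 2) ^ 2 =
      ∫ s in (T / 4 + y)..(4 * T + y), ‖zt s‖ ^ 2 * ‖dp (N * Y ^ 2) c s‖ ^ 2 := by
    rw [← intervalIntegral.integral_comp_add_right (fun s => ‖zt s‖ ^ 2 * ‖dp (N * Y ^ 2) c s‖ ^ 2) y]
    refine intervalIntegral.integral_congr fun t _ => ?_
    show ‖dp N b t‖ ^ 2 * (‖zt (t + y)‖ * ‖eta W Y (t + y)‖ ^ 2) ^ 2 =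
      ‖zt (t + y)‖ ^ 2 * ‖dp (N * Y ^ 2) c (t + y)‖ ^ 2
    rw [← key (t + y), norm_mul, norm_pow, add_sub_cancel_right]
    ring
  rw [hsub]
  have hcont : Continuous fun s : ℝ => ‖zt s‖ ^ 2 * ‖dp (N * Y ^ 2) c s‖ ^ 2 := by
    have h1 := zt_cont
    have h2 := dp_cont (N * Y ^ 2) c
    fun_prop
  rw [abs_le] at hy
  have hle : ∫ s in (T / 4 + y)..(4 * T + y), ‖zt s‖ ^ 2 * ‖dp (N * Y ^ 2) c s‖ ^ 2 ≤
      ∫ s in (T / 8)..(9 / 2 * T), ‖zt s‖ ^ 2 * ‖dp (N * Y ^ 2) c s‖ ^ 2 := by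
    refine intervalIntegral.integral_mono_interval (by linarith) (by linarith) (by linarith) ?_
      (hcont.intervalIntegrable _ _)
    exact Filter.Eventually.of_forall fun s => by positivity
  have hspl : ∫ s in (T / 8)..(9 / 2 * T), ‖zt s‖ ^ 2 * ‖dp (N * Y ^ 2) c s‖ ^ 2 =
      (∫ s in (T / 4 / 2)..(3 * (T / 4)), ‖zt s‖ ^ 2 * ‖dp (N * Y ^ 2) c s‖ ^ 2) +
      ∫ s in (3 / 2 * T / 2)..(3 * (3 / 2 * T)), ‖zt s‖ ^ 2 * ‖dp (N * Y ^ 2) c s‖ ^ 2 := by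
    rw [show T / 4 / 2 = T / 8 by ring, show 3 / 2 * T / 2 = 3 * (T / 4) by ring,
      show 3 * (3 / 2 * T) = 9 / 2 * T by ring,
      intervalIntegral.integral_add_adjacent_intervals (hcont.intervalIntegrable _ _)
        (hcont.intervalIntegrable _ _)]
  have h1 := hone (T / 4) le_rfl (by linarith)
  have h2 := hone (3 / 2 * T) (by linarith) (by linarith)
  rw [hspl] at hle
  refine hle.trans ((add_le_add h1 h2).trans ?_)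
  have h3 : 0 ≤ C * T * ((80 * C₁ / ϑ + β ^ 4) * N2 N b) := by positivity
  have e1 : C * (T / 4) * ((80 * C₁ / ϑ + β ^ 4) * N2 N b) +
      C * (3 / 2 * T) * ((80 * C₁ / ϑ + β ^ 4) * N2 N b) =
      7 / 4 * (C * T * ((80 * C₁ / ϑ + β ^ 4) * N2 N b)) := by ring
  rw [e1, show C * 2 * (80 * C₁ / ϑ + β ^ 4) * T * N2 N b =
    2 * (C * T * ((80 * C₁ / ϑ + β ^ 4) * N2 N b)) by ring]
  linarith

/-- large shifts -/
theorem largeK {W : ℝ → ℝ} {T β : ℝ} (hT : 64 ≤ T) {Y N : ℕ}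
    (hY4 : (Y : ℝ) ^ 4 ≤ T / 4) (hN : (N : ℝ) ≤ (T / 4) ^ (1 / 4 : ℝ))
    (he : ∀ t, ‖eta W Y t‖ ≤ Y * β) (b : ℕ → ℂ) (y : ℝ) (hy : T / 8 < |y|) :
    ∫ t in (T / 4)..(4 * T), ‖dp N b t‖ ^ 2 * (‖zt (t + y)‖ * ‖eta W Y (t + y)‖ ^ 2) ^ 2 ≤
      (16 * 180 ^ 2 * 33 ^ 4) * β ^ 4 * T * (1 + |y|) ^ 6 * N2 N b := by
  have hn0 := N2_nonneg N b
  have hY0 : (0 : ℝ) ≤ Y := Nat.cast_nonneg Y
  have hy0 := abs_nonneg y
  have hpt : ∀ t ∈ Set.Icc (T / 4) (4 * T),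
      ‖dp N b t‖ ^ 2 * (‖zt (t + y)‖ * ‖eta W Y (t + y)‖ ^ 2) ^ 2 ≤
      ‖dp N b t‖ ^ 2 * (2 * 180 ^ 2 * 33 ^ 4 * β ^ 4 * (1 + |y|) ^ 5) := by
    intro t ht
    refine mul_le_mul_of_nonneg_left ?_ (by positivity)
    have h1 := zt_norm (t + y)
    have h2 := he (t + y)
    have h3 : 1 + |t + y| ≤ 33 * (1 + |y|) := by
      have h4 := abs_add_le t y
      have h5 : |t| = t := abs_of_nonneg (by linarith [ht.1])
      have := ht.2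
      linarith
    have h4 : 0 ≤ 1 + |t + y| := by positivity
    have h5 : ‖zt (t + y)‖ ≤ 180 * (33 ^ 2 * (1 + |y|) ^ 2) := by
      refine h1.trans ?_
      have : (1 + |t + y|) ^ 2 ≤ (33 * (1 + |y|)) ^ 2 := pow_le_pow_left₀ h4 h3 2
      nlinarith
    have h6 : ‖eta W Y (t + y)‖ ^ 2 ≤ (Y * β : ℝ) ^ 2 := pow_le_pow_left₀ (norm_nonneg _) h2 2
    have h7 : ‖zt (t + y)‖ * ‖eta W Y (t + y)‖ ^ 2 ≤
        180 * (33 ^ 2 * (1 + |y|) ^ 2) * (Y * β : ℝ) ^ 2 :=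
      mul_le_mul h5 h6 (by positivity) (by positivity)
    calc (‖zt (t + y)‖ * ‖eta W Y (t + y)‖ ^ 2) ^ 2 ≤
          (180 * (33 ^ 2 * (1 + |y|) ^ 2) * (Y * β : ℝ) ^ 2) ^ 2 :=
          pow_le_pow_left₀ (by positivity) h7 2
      _ = 180 ^ 2 * 33 ^ 4 * β ^ 4 * (1 + |y|) ^ 4 * (Y : ℝ) ^ 4 := by ring
      _ ≤ 180 ^ 2 * 33 ^ 4 * β ^ 4 * (1 + |y|) ^ 4 * (2 * (1 + |y|)) :=
          mul_le_mul_of_nonneg_left (by linarith) (by positivity)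
      _ = 2 * 180 ^ 2 * 33 ^ 4 * β ^ 4 * (1 + |y|) ^ 5 := by ring
  have hdp := dp_cont N b
  have hint : ∫ t in (T / 4)..(4 * T),
      ‖dp N b t‖ ^ 2 * (‖zt (t + y)‖ * ‖eta W Y (t + y)‖ ^ 2) ^ 2 ≤
      ∫ t in (T / 4)..(4 * T), ‖dp N b t‖ ^ 2 * (2 * 180 ^ 2 * 33 ^ 4 * β ^ 4 * (1 + |y|) ^ 5) := by
    refine intervalIntegral.integral_mono_on (by linarith)
      ((integrand_cont W N Y b y).intervalIntegrable _ _) ?_ hpt
    apply Continuous.intervalIntegrable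
    fun_prop
  refine hint.trans ?_
  rw [intervalIntegral.integral_mul_const]
  have h8 := mv4 hT hN b
  have h9 : (1 + |y|) ^ 5 ≤ (1 + |y|) ^ 6 := pow_le_pow_right₀ (by linarith) (by norm_num)
  have hT0 : 0 < T := by linarith
  calc (∫ t in (T / 4)..(4 * T), ‖dp N b t‖ ^ 2) * (2 * 180 ^ 2 * 33 ^ 4 * β ^ 4 * (1 + |y|) ^ 5) ≤
        (8 * T * N2 N b) * (2 * 180 ^ 2 * 33 ^ 4 * β ^ 4 * (1 + |y|) ^ 6) := by
        refine mul_le_mul h8 ?_ (by positivity) (by positivity)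
        exact mul_le_mul_of_nonneg_left h9 (by positivity)
    _ = _ := by ring

theorem t_R2K : S_R2K := by
  intro Pw q c₀ C₀ D hG hD hM hTS hA _ _
  obtain ⟨ϑ, C, hϑ, hϑ4, hC, hev⟩ := hTS
  obtain ⟨T₁, hT₁⟩ := eventually_atTop.1 hev
  refine ⟨ϑ / 20, max (C * 2 * (80 * D / ϑ + 1)) (16 * 180 ^ 2 * 33 ^ 4), by positivity,
    by linarith, by positivity, ?_⟩
  have hinf : Tendsto (fun T : ℝ => T ^ (ϑ / 20)) atTop atTop := tendsto_rpow_atTop (by positivity)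
  unfold R2K
  filter_upwards [eventually_ge_atTop (4 * T₁), eventually_ge_atTop 64,
    hinf.eventually_ge_atTop 4] with T hT1 hT2 hT3
  intro N hN b κ y
  have hT0 : 0 < T := by linarith
  have hx1 := hN
  have h4ϑ : (4 : ℝ) ^ ϑ ≤ T ^ (ϑ / 2) := by
    have h1 : (4 : ℝ) ≤ T ^ (1 / 2 : ℝ) := by
      have h2 : (4 : ℝ) = (16 : ℝ) ^ (1 / 2 : ℝ) := by
        rw [← Real.sqrt_eq_rpow, show (16 : ℝ) = 4 ^ 2 by norm_num,
          Real.sqrt_sq (by norm_num)]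
      rw [h2]
      exact Real.rpow_le_rpow (by norm_num) (by linarith) (by norm_num)
    calc (4 : ℝ) ^ ϑ ≤ (T ^ (1 / 2 : ℝ)) ^ ϑ := Real.rpow_le_rpow (by norm_num) h1 hϑ.le
      _ = T ^ (ϑ / 2) := by rw [← Real.rpow_mul hT0.le]; congr 1; ring
  obtain ⟨Y, hYdef⟩ : ∃ Y : ℕ, Y = ⌊T ^ (ϑ / 20)⌋₊ := ⟨_, rfl⟩
  rw [← hYdef]
  have hY2 : (Y : ℝ) ≤ T ^ (ϑ / 20) := by rw [hYdef]; exact Nat.floor_le (by positivity)
  have hY : 2 ≤ Y := by rw [hYdef]; exact Nat.le_floor (by push_cast; linarith)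
  have hNY : N ≤ Y := by rw [hYdef]; exact Nat.le_floor hN
  have hY3 : ϑ / 40 * Real.log T ≤ Real.log Y := by
    have h1 : Real.sqrt (T ^ (ϑ / 20)) ≤ (Y : ℕ) := by
      have h2 : T ^ (ϑ / 20) < (Y : ℕ) + 1 := by rw [hYdef]; exact Nat.lt_floor_add_one _
      have h3 : Real.sqrt (T ^ (ϑ / 20)) ≤ T ^ (ϑ / 20) / 2 := by
        rw [Real.sqrt_le_left (by linarith)]
        nlinarith
      linarith
    have h2 : Real.log (Real.sqrt (T ^ (ϑ / 20))) = ϑ / 40 * Real.log T := by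
      rw [Real.log_sqrt (by linarith), Real.log_rpow hT0]
      ring
    rw [← h2]
    exact Real.log_le_log (Real.sqrt_pos.2 (by linarith)) h1
  have hhalf : T ^ (1 / 2 : ℝ) ≤ T / 4 := by
    rw [← Real.sqrt_eq_rpow, Real.sqrt_le_left (by linarith)]
    nlinarith
  have hY5 : (Y : ℝ) ^ 5 ≤ (T / 4) ^ ϑ := by
    rw [Real.div_rpow hT0.le (by norm_num), le_div_iff₀ (by positivity)]
    calc (Y : ℝ) ^ 5 * 4 ^ ϑ ≤ (T ^ (ϑ / 20)) ^ 5 * T ^ (ϑ / 2) :=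
          mul_le_mul (pow_le_pow_left₀ (Nat.cast_nonneg Y) hY2 5) h4ϑ (by positivity) (by positivity)
      _ = T ^ (ϑ / 20 * 5 + ϑ / 2) := by
          rw [← Real.rpow_natCast, ← Real.rpow_mul hT0.le, ← Real.rpow_add hT0]
          norm_num
      _ ≤ T ^ ϑ := Real.rpow_le_rpow_of_exponent_le (by linarith) (by linarith)
  have hY4 : (Y : ℝ) ^ 4 ≤ T / 4 := by
    calc (Y : ℝ) ^ 4 ≤ (T ^ (ϑ / 20)) ^ 4 := pow_le_pow_left₀ (Nat.cast_nonneg Y) hY2 4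
      _ = T ^ (ϑ / 20 * 4) := by rw [← Real.rpow_natCast, ← Real.rpow_mul hT0.le]; norm_num
      _ ≤ T ^ (1 / 2 : ℝ) := Real.rpow_le_rpow_of_exponent_le (by linarith) (by linarith)
      _ ≤ T / 4 := hhalf
  have hN4 : (N : ℝ) ≤ (T / 4) ^ (1 / 4 : ℝ) := by
    calc (N : ℝ) ≤ T ^ (ϑ / 20) := hN
      _ ≤ T ^ (1 / 2 * (1 / 4) : ℝ) := Real.rpow_le_rpow_of_exponent_le (by linarith) (by linarith)
      _ = (T ^ (1 / 2 : ℝ)) ^ (1 / 4 : ℝ) := by rw [Real.rpow_mul hT0.le]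
      _ ≤ (T / 4) ^ (1 / 4 : ℝ) := Real.rpow_le_rpow (by positivity) hhalf (by norm_num)
  -- reduction to supported coefficients
  obtain ⟨b₀, hb₀⟩ : ∃ b₀ : ℕ → ℂ, b₀ = fun n => if 1 ≤ n ∧ n ≤ N then b n else 0 := ⟨_, rfl⟩
  have hb₀s : ∀ n, b₀ n ≠ 0 → 1 ≤ n ∧ n ≤ N := by
    intro n hn
    by_contra h
    apply hn
    rw [hb₀]
    simp only [if_neg h]
  have hb₀e : ∀ n ∈ Finset.Icc 1 N, b₀ n = b n := by
    intro n hn
    rw [hb₀]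
    simp only [if_pos (Finset.mem_Icc.1 hn)]
  have hdp : ∀ t, dp N b t = dp N b₀ t := by
    intro t
    unfold dp
    refine Finset.sum_congr rfl fun n hn => ?_
    rw [hb₀e n hn]
  have hN2 : N2 N b = N2 N b₀ := by
    unfold N2
    refine Finset.sum_congr rfl fun n hn => ?_
    rw [hb₀e n hn]
  have hn0 := N2_nonneg N b₀
  simp only [hdp, hN2]
  have he1 : ∀ n, ‖et (til Pw κ) Y n‖ ≤ Real.exp |κ| := fun n => et_til_norm hG hA κ Y n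
  have he2 : ∀ n, Y < n → et (til Pw κ) Y n = 0 := fun n hn => et_til_supp hG κ hY n hn
  have hexp4 : Real.exp |κ| ^ 4 = Real.exp (4 * |κ|) := by
    rw [← Real.exp_nat_mul]; norm_num
  have hmax1 : C * 2 * (80 * D / ϑ + 1) ≤
      max (C * 2 * (80 * D / ϑ + 1)) (16 * 180 ^ 2 * 33 ^ 4) := le_max_left _ _
  have hmax2 : (16 * 180 ^ 2 * 33 ^ 4 : ℝ) ≤
      max (C * 2 * (80 * D / ϑ + 1)) (16 * 180 ^ 2 * 33 ^ 4) := le_max_right _ _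
  have hmax0 : 0 ≤ max (C * 2 * (80 * D / ϑ + 1)) (16 * 180 ^ 2 * 33 ^ 4) := by positivity
  generalize max (C * 2 * (80 * D / ϑ + 1)) (16 * 180 ^ 2 * 33 ^ 4) = A at hmax1 hmax2 hmax0
  have hTN : 0 ≤ Real.exp (4 * |κ|) * T * N2 N b₀ := by positivity
  have hsm : |y| ≤ T / 8 → ∫ t in (T / 4)..(4 * T), ‖dp N b₀ t‖ ^ 2 *
      (‖zt (t + y)‖ * ‖eta (til Pw κ) Y (t + y)‖ ^ 2) ^ 2 ≤
      A * Real.exp (4 * |κ|) * T * N2 N b₀ := by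
    intro hy
    have h1 := smallK (β := Real.exp |κ|) (hM κ) (by positivity) hC hϑ hT2 (Real.exp_pos _).le
      (fun T' hT' => hT₁ T' (by linarith)) hY hY5 hY3 he1 he2 hNY b₀ hb₀s y hy
    refine h1.trans ?_
    rw [hexp4]
    calc C * 2 * (80 * (D * Real.exp (4 * |κ|)) / ϑ + Real.exp (4 * |κ|)) * T * N2 N b₀ =
          (C * 2 * (80 * D / ϑ + 1)) * (Real.exp (4 * |κ|) * T * N2 N b₀) := by ring
      _ ≤ A * (Real.exp (4 * |κ|) * T * N2 N b₀) := mul_le_mul_of_nonneg_right hmax1 hTN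
      _ = A * Real.exp (4 * |κ|) * T * N2 N b₀ := by ring
  refine ⟨hsm, ?_⟩
  have h6 : (1 : ℝ) ≤ (1 + |y|) ^ 6 := one_le_pow₀ (by linarith [abs_nonneg y])
  rcases le_or_gt |y| (T / 8) with hy | hy
  · refine (hsm hy).trans ?_
    calc A * Real.exp (4 * |κ|) * T * N2 N b₀ = (A * (Real.exp (4 * |κ|) * T * N2 N b₀)) * 1 := by
          ring
      _ ≤ (A * (Real.exp (4 * |κ|) * T * N2 N b₀)) * (1 + |y|) ^ 6 :=
          mul_le_mul_of_nonneg_left h6 (mul_nonneg hmax0 hTN)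
      _ = A * Real.exp (4 * |κ|) * T * (1 + |y|) ^ 6 * N2 N b₀ := by ring
  · have h1 := largeK (W := til Pw κ) (β := Real.exp |κ|) hT2 hY4 hN4
      (eta_til_norm hG hA κ Y) b₀ y hy
    refine h1.trans ?_
    rw [hexp4]
    calc 16 * 180 ^ 2 * 33 ^ 4 * Real.exp (4 * |κ|) * T * (1 + |y|) ^ 6 * N2 N b₀ =
          (16 * 180 ^ 2 * 33 ^ 4) * ((Real.exp (4 * |κ|) * T * N2 N b₀) * (1 + |y|) ^ 6) := by ring
      _ ≤ A * ((Real.exp (4 * |κ|) * T * N2 N b₀) * (1 + |y|) ^ 6) :=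
          mul_le_mul_of_nonneg_right hmax2 (by positivity)
      _ = A * Real.exp (4 * |κ|) * T * (1 + |y|) ^ 6 * N2 N b₀ := by ring

end

end Pool.Agent.Q175.UM
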