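import Pool.Agent.Q175.UM.X0

set_option autoImplicit false

/-! Job UM-R4 (helper175): the smoothed mollified zeta function is `1 + o(1)`. -/

namespace Pool.Agent.Q175.UM

open Filter Topology MeasureTheory Complex
open Pool.Agent.W182.KO (P TF)
open Q80.SP (kr kr_bd kr_cont sc_int)
open Pool.Agent.Q97.UM
open scoped ContDiff

noncomputable section

/-- sums over pairs as sums over products -/
theorem conv_sum (Y : ℕ) (φ : ℕ → ℕ → ℂ) (h0 : ∀ h k, 1 ≤ h → 1 ≤ k → Y < h * k → φ h k = 0) :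
    ∑ h ∈ Finset.Icc 1 Y, ∑ k ∈ Finset.Icc 1 Y, φ h k =
      ∑ m ∈ Finset.Icc 1 Y, ∑ p ∈ m.divisorsAntidiagonal, φ p.1 p.2 := by
  rw [← Finset.sum_product']
  have h1 : ∑ x ∈ Finset.Icc 1 Y ×ˢ Finset.Icc 1 Y, φ x.1 x.2 =
      ∑ x ∈ (Finset.Icc 1 Y ×ˢ Finset.Icc 1 Y).filter (fun x => x.1 * x.2 ∈ Finset.Icc 1 Y),
        φ x.1 x.2 := by
    rw [Finset.sum_filter]
    refine Finset.sum_congr rfl fun x hx => ?_
    obtain ⟨a1, a2⟩ := Finset.mem_product.1 hx
    have b1 := (Finset.mem_Icc.1 a1).1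
    have b2 := (Finset.mem_Icc.1 a2).1
    split_ifs with hc
    · rfl
    · refine h0 _ _ b1 b2 ?_
      by_contra hcon
      exact hc (Finset.mem_Icc.2 ⟨Nat.mul_pos b1 b2, not_lt.1 hcon⟩)
  have h2 := Finset.sum_fiberwise_of_maps_to
    (s := (Finset.Icc 1 Y ×ˢ Finset.Icc 1 Y).filter (fun x => x.1 * x.2 ∈ Finset.Icc 1 Y))
    (t := Finset.Icc 1 Y) (g := fun x : ℕ × ℕ => x.1 * x.2)
    (fun x hx => (Finset.mem_filter.1 hx).2) (fun x => φ x.1 x.2)
  rw [h1, ← h2]
  refine Finset.sum_congr rfl fun m hm => ?_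
  obtain ⟨hm1, hm2⟩ := Finset.mem_Icc.1 hm
  refine Finset.sum_congr ?_ fun _ _ => rfl
  ext x
  simp only [Finset.mem_filter, Finset.mem_product, Finset.mem_Icc, Nat.mem_divisorsAntidiagonal]
  constructor
  · rintro ⟨_, h3⟩
    exact ⟨h3, by omega⟩
  · rintro ⟨h3, h4⟩
    have h5 : 1 ≤ x.1 := by
      rcases Nat.eq_zero_or_pos x.1 with h | h
      · rw [h, zero_mul] at h3; omega
      · exact h
    have h6 : 1 ≤ x.2 := by
      rcases Nat.eq_zero_or_pos x.2 with h | h
      · rw [h, mul_zero] at h3; omega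
      · exact h
    have h7 : x.1 ≤ m := by rw [← h3]; exact Nat.le_mul_of_pos_right _ h6
    have h8 : x.2 ≤ m := by rw [← h3]; exact Nat.le_mul_of_pos_left _ h5
    refine ⟨⟨⟨⟨h5, by omega⟩, ⟨h6, by omega⟩⟩, ?_⟩, h3⟩
    rw [h3]
    exact ⟨hm1, hm2⟩

/-- the arithmetic identity -/
theorem arith (hA : S_AL) (Y : ℕ) (hY : 1 ≤ Y) (G : ℕ → ℂ) (hG : ∀ r, Y < r → G r = 0) :
    ∑ h ∈ Finset.Icc 1 Y, ∑ k ∈ Finset.Icc 1 Y, (al h : ℂ) * (al k : ℂ) *
      ∑ n ∈ Finset.Icc 1 Y, G (h * k * n) = G 1 := by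
  have h1 : ∑ h ∈ Finset.Icc 1 Y, ∑ k ∈ Finset.Icc 1 Y, (al h : ℂ) * (al k : ℂ) *
      ∑ n ∈ Finset.Icc 1 Y, G (h * k * n) =
      ∑ m ∈ Finset.Icc 1 Y, (ArithmeticFunction.moebius m : ℂ) * ∑ n ∈ Finset.Icc 1 Y, G (m * n) := by
    rw [conv_sum Y (fun h k => (al h : ℂ) * (al k : ℂ) * ∑ n ∈ Finset.Icc 1 Y, G (h * k * n))]
    · refine Finset.sum_congr rfl fun m hm => ?_
      obtain ⟨hm1, hm2⟩ := Finset.mem_Icc.1 hm
      have h2 : ∀ p ∈ m.divisorsAntidiagonal, (al p.1 : ℂ) * (al p.2 : ℂ) *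
          ∑ n ∈ Finset.Icc 1 Y, G (p.1 * p.2 * n) =
          (al p.1 : ℂ) * (al p.2 : ℂ) * ∑ n ∈ Finset.Icc 1 Y, G (m * n) := by
        intro p hp
        rw [(Nat.mem_divisorsAntidiagonal.1 hp).1]
      rw [Finset.sum_congr rfl h2, ← Finset.sum_mul]
      congr 1
      have h3 := hA.1 m hm1
      have h4 := congrArg (fun x : ℝ => (x : ℂ)) h3
      push_cast at h4
      exact h4
    · intro h k hh hk hlt
      rw [Finset.sum_eq_zero, mul_zero]
      intro n hn
      apply hG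
      have := (Finset.mem_Icc.1 hn).1
      exact lt_of_lt_of_le hlt (Nat.le_mul_of_pos_right _ this)
  rw [h1]
  have h5 : ∑ m ∈ Finset.Icc 1 Y, (ArithmeticFunction.moebius m : ℂ) * ∑ n ∈ Finset.Icc 1 Y, G (m * n) =
      ∑ r ∈ Finset.Icc 1 Y, ∑ p ∈ r.divisorsAntidiagonal,
        (ArithmeticFunction.moebius p.1 : ℂ) * G (p.1 * p.2) := by
    rw [← conv_sum Y (fun m n => (ArithmeticFunction.moebius m : ℂ) * G (m * n))]
    · refine Finset.sum_congr rfl fun m _ => ?_
      rw [Finset.mul_sum]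
    · intro h k _ _ hlt
      rw [hG _ hlt, mul_zero]
  rw [h5]
  have h6 : ∀ r ∈ Finset.Icc 1 Y, ∑ p ∈ r.divisorsAntidiagonal,
      (ArithmeticFunction.moebius p.1 : ℂ) * G (p.1 * p.2) = if r = 1 then G 1 else 0 := by
    intro r hr
    have h7 : ∀ p ∈ r.divisorsAntidiagonal, (ArithmeticFunction.moebius p.1 : ℂ) * G (p.1 * p.2) =
        (ArithmeticFunction.moebius p.1 : ℂ) * G r := by
      intro p hp
      rw [(Nat.mem_divisorsAntidiagonal.1 hp).1]
    rw [Finset.sum_congr rfl h7, ← Finset.sum_mul]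
    rw [Nat.sum_divisorsAntidiagonal (fun a _ => (ArithmeticFunction.moebius a : ℂ))]
    have h8 : ∑ i ∈ r.divisors, (ArithmeticFunction.moebius i : ℂ) =
        ((∑ i ∈ r.divisors, ArithmeticFunction.moebius i : ℤ) : ℂ) := by
      push_cast
      rfl
    rw [h8]
    have h9 : (∑ i ∈ r.divisors, ArithmeticFunction.moebius i) = if r = 1 then 1 else 0 := by
      have h10 := ArithmeticFunction.coe_zeta_mul_apply (f := ArithmeticFunction.moebius) (x := r)
      rw [ArithmeticFunction.coe_zeta_mul_moebius, ArithmeticFunction.one_apply] at h10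
      exact h10.symm
    rw [h9]
    split_ifs with hr1
    · rw [hr1]; simp
    · simp
  rw [Finset.sum_congr rfl h6, Finset.sum_ite_eq' , if_pos (Finset.mem_Icc.2 ⟨le_rfl, hY⟩)]

theorem t_R4 : S_R4 := by
  intro Pw q ψ₁ c₀ C₀ θ δ hG hA hF hs h0 hψ0 hb1 hθ0 hθ1 hδ0 hδ1
  have hTF := TF_scale hs h0 hδ0
  obtain ⟨C, hC, hdbl⟩ := dbl hF hTF hδ0.le
  have hlim : ∀ᶠ T : ℝ in atTop, C * T ^ (-1 : ℝ) ≤ 1 / 4 := by
    have h1 : Tendsto (fun T : ℝ => C * T ^ (-1 : ℝ)) atTop (𝓝 (C * 0)) :=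
      (tendsto_rpow_neg_atTop (by norm_num)).const_mul _
    rw [mul_zero] at h1
    exact (h1.eventually (ge_mem_nhds (by norm_num : (0 : ℝ) < 1 / 4)))
  have hlim2 : ∀ᶠ T : ℝ in atTop, 2 ≤ T ^ (θ / 2) :=
    (tendsto_rpow_atTop (by linarith : 0 < θ / 2)).eventually_ge_atTop 2
  filter_upwards [hlim, hlim2, eventually_ge_atTop (4 : ℝ)] with T hT1 hT2 hT4 t ht1 ht2
  have hT0 : 0 < T := by linarith
  have hL1 : 1 ≤ Real.log T := by
    have h1 : Real.exp 1 ≤ T := by linarith [Real.exp_one_lt_d9]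
    have h2 := Real.log_le_log (Real.exp_pos 1) h1
    rwa [Real.log_exp] at h2
  set L := Real.log T with hL
  have hL0 : 0 < L := by linarith
  set Y := ⌊T ^ θ⌋₊ with hY
  have hYT : (Y : ℝ) ≤ T ^ θ := Nat.floor_le (by positivity)
  -- lower bound for `Y`
  have hYlow : T ^ (θ / 2) ≤ Y := by
    have h1 : T ^ θ < Y + 1 := Nat.lt_floor_add_one _
    have h2 : T ^ θ = T ^ (θ / 2) * T ^ (θ / 2) := by
      rw [← Real.rpow_add hT0]; congr 1; ring
    nlinarith
  have hY1 : 1 ≤ Y := by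
    have : (1 : ℝ) ≤ Y := by linarith
    exact_mod_cast this
  have hlogYlow : θ / 2 * L ≤ Real.log Y := by
    have h1 := Real.log_le_log (by positivity) hYlow
    rwa [Real.log_rpow hT0] at h1
  have hlogY0 : 0 < Real.log Y := lt_of_lt_of_le (by positivity) hlogYlow
  have hδY : δ * L ≤ Real.log Y / 4 := by nlinarith
  have hlogY : ∀ n ∈ Finset.Icc 1 Y, 0 ≤ Real.log n ∧ Real.log n ≤ θ * L := by
    intro n hn
    obtain ⟨hn1, hn2⟩ := Finset.mem_Icc.1 hn
    have hn1' : (1 : ℝ) ≤ n := by exact_mod_cast hn1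
    refine ⟨Real.log_nonneg hn1', ?_⟩
    have h3 : (n : ℝ) ≤ T ^ θ := le_trans (by exact_mod_cast hn2) hYT
    have h4 := Real.log_le_log (by linarith) h3
    rwa [Real.log_rpow hT0] at h4
  -- the data
  set s := (Finset.Icc 1 Y) ×ˢ (Finset.Icc 1 Y) with hs'
  set a : ℕ × ℕ → ℂ := fun p => (er Pw Y p.1 : ℂ) * (er Pw Y p.2 : ℂ) * (w p.1 t * w p.2 t) with ha
  set μ : ℕ × ℕ → ℝ := fun p => -((Real.log p.1 + Real.log p.2) / L) with hμ
  have hmem : ∀ p ∈ s, p.1 ∈ Finset.Icc 1 Y ∧ p.2 ∈ Finset.Icc 1 Y := fun p hp =>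
    Finset.mem_product.1 hp
  have hμ2 : ∀ p ∈ s, |μ p| ≤ 2 := by
    intro p hp
    obtain ⟨h1, h2⟩ := hmem p hp
    obtain ⟨a1, a2⟩ := hlogY _ h1
    obtain ⟨b1, b2⟩ := hlogY _ h2
    rw [hμ]
    simp only
    rw [abs_neg, abs_div, abs_of_pos hL0, div_le_iff₀ hL0, abs_of_nonneg (by linarith)]
    nlinarith
  have ha1 : ∀ p ∈ s, ‖a p‖ ≤ 1 := by
    intro p hp
    obtain ⟨h1, h2⟩ := hmem p hp
    have e1 := er_bd hG hA Y p.1
    have e2 := er_bd hG hA Y p.2
    have e3 := w_norm (Finset.mem_Icc.1 h1).1 t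
    have e4 := w_norm (Finset.mem_Icc.1 h2).1 t
    rw [ha]
    simp only [norm_mul, Complex.norm_real, Real.norm_eq_abs]
    have f1 : |er Pw Y p.1| * |er Pw Y p.2| ≤ 1 := by
      nlinarith [abs_nonneg (er Pw Y p.1), abs_nonneg (er Pw Y p.2)]
    have f2 : ‖w p.1 t‖ * ‖w p.2 t‖ ≤ 1 := by
      nlinarith [norm_nonneg (w p.1 t), norm_nonneg (w p.2 t)]
    have f3 : 0 ≤ ‖w p.1 t‖ * ‖w p.2 t‖ := by positivity
    nlinarith [mul_nonneg (abs_nonneg (er Pw Y p.1)) (abs_nonneg (er Pw Y p.2))]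
  have hmain := hdbl T hT4 t ht1 ht2 s a μ hμ2 ha1
  -- the integrand
  have hint : ∀ y : ℝ, (zt (t + y) * eta Pw Y (t + y) ^ 2) =
      ∑ p ∈ s, a p * (cexp (I * (μ p * L * y : ℝ)) * zt (t + y)) := by
    intro y
    rw [sq, eta_eq, Finset.sum_mul_sum, ← Finset.sum_product', Finset.mul_sum]
    refine Finset.sum_congr rfl fun p hp => ?_
    obtain ⟨h1, h2⟩ := hmem p hp
    have g1 := (Finset.mem_Icc.1 h1).1
    have g2 := (Finset.mem_Icc.1 h2).1
    rw [w_shift g1, w_shift g2]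
    rw [ha, hμ]
    simp only
    have e2 : cexp (I * (((-((Real.log p.1 + Real.log p.2) / L)) * L * y : ℝ) : ℂ)) =
        (cexp (-(I * (Real.log p.1 * y : ℝ))) *
          cexp (-(I * (Real.log p.2 * y : ℝ)))) := by
      rw [← Complex.exp_add]
      congr 1
      have hLc : (L : ℂ) ≠ 0 := Complex.ofReal_ne_zero.2 hL0.ne'
      push_cast
      field_simp
      ring
    rw [e2]
    ring
  have hint' : (∫ y : ℝ, kr (fun u => (ψ₁ (u / δ) : ℂ)) L y *
      (zt (t + y) * eta Pw Y (t + y) ^ 2)) =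
      ∫ y : ℝ, kr (fun u => (ψ₁ (u / δ) : ℂ)) L y *
        (∑ p ∈ s, a p * (cexp (I * (μ p * L * y : ℝ)) * zt (t + y))) := by
    refine integral_congr_ae (Eventually.of_forall fun y => ?_)
    simp only
    rw [hint y]
  -- the main term
  set G : ℕ → ℂ := fun r => (ψ₁ ((Real.log r / L) / δ) : ℂ) * w r t with hGdef
  have hGsupp : ∀ r : ℕ, 1 ≤ r → G r ≠ 0 → Real.log r < Real.log Y / 4 := by
    intro r hr hne
    by_contra hcon
    push Not at hcon
    apply hne
    rw [hGdef]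
    simp only
    rw [h0, Complex.ofReal_zero, zero_mul]
    have hr' : (1 : ℝ) ≤ r := by exact_mod_cast hr
    have hlr := Real.log_nonneg hr'
    rw [abs_div, abs_of_pos hδ0, le_div_iff₀ hδ0, abs_of_nonneg (by positivity), one_mul,
      le_div_iff₀ hL0]
    linarith
  have hGY : ∀ r : ℕ, Y < r → G r = 0 := by
    intro r hr
    by_contra hne
    have h1 := hGsupp r (by omega) hne
    have h2 : Real.log Y ≤ Real.log r := Real.log_le_log (by exact_mod_cast hY1)
      (by exact_mod_cast hr.le)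
    linarith
  have hsum : ∑ p ∈ s, a p * ∑' n : ℕ, (ψ₁ ((Real.log n / L - μ p) / δ) : ℂ) * w n t = 1 := by
    have h1 : ∀ p ∈ s, a p * ∑' n : ℕ, (ψ₁ ((Real.log n / L - μ p) / δ) : ℂ) * w n t =
        (al p.1 : ℂ) * (al p.2 : ℂ) * ∑ n ∈ Finset.Icc 1 Y, G (p.1 * p.2 * n) := by
      intro p hp
      obtain ⟨h1, h2⟩ := hmem p hp
      have g1 := (Finset.mem_Icc.1 h1).1
      have g2 := (Finset.mem_Icc.1 h2).1
      have p1 : (0 : ℝ) < p.1 := by exact_mod_cast g1
      have p2 : (0 : ℝ) < p.2 := by exact_mod_cast g2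
      have hterm : ∀ n : ℕ, 1 ≤ n → a p * ((ψ₁ ((Real.log n / L - μ p) / δ) : ℂ) * w n t) =
          (al p.1 : ℂ) * (al p.2 : ℂ) * G (p.1 * p.2 * n) := by
        intro n hn
        have p3 : (0 : ℝ) < n := by exact_mod_cast hn
        have e1 : Real.log ((p.1 * p.2 * n : ℕ) : ℝ) = Real.log p.1 + Real.log p.2 + Real.log n := by
          push_cast
          rw [Real.log_mul (by positivity) p3.ne', Real.log_mul p1.ne' p2.ne']
        have e2 : (Real.log n / L - μ p) / δ = (Real.log ((p.1 * p.2 * n : ℕ) : ℝ) / L) / δ := by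
          rw [e1, hμ]
          congr 1
          ring
        by_cases hne : G (p.1 * p.2 * n) = 0
        · rw [hne, mul_zero]
          have e3 : (ψ₁ ((Real.log n / L - μ p) / δ) : ℂ) = 0 := by
            rw [e2]
            rw [hGdef] at hne
            simp only [mul_eq_zero] at hne
            rcases hne with h | h
            · exact h
            · exfalso
              unfold w at h
              rw [Complex.cpow_eq_zero_iff] at h
              have := h.1
              have h5 : 0 < p.1 * p.2 * n := by positivity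
              have h6 : ((p.1 * p.2 * n : ℕ) : ℂ) ≠ 0 := by exact_mod_cast h5.ne'
              exact h6 this
          rw [e3, zero_mul, mul_zero]
        · have h5 : 1 ≤ p.1 * p.2 * n := Nat.mul_pos (Nat.mul_pos g1 g2) hn
          have h6 := hGsupp _ h5 hne
          rw [e1] at h6
          have q1 : 0 ≤ Real.log p.1 := Real.log_nonneg (by exact_mod_cast g1)
          have q2 : 0 ≤ Real.log p.2 := Real.log_nonneg (by exact_mod_cast g2)
          have q3 : 0 ≤ Real.log n := Real.log_nonneg (by exact_mod_cast hn)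
          have f1 : Pw (Real.log p.1 / Real.log Y) = 1 := by
            apply hG.flat
            rw [abs_of_nonneg (by positivity), div_le_iff₀ hlogY0]
            linarith
          have f2 : Pw (Real.log p.2 / Real.log Y) = 1 := by
            apply hG.flat
            rw [abs_of_nonneg (by positivity), div_le_iff₀ hlogY0]
            linarith
          rw [ha, hGdef]
          simp only
          rw [e2]
          unfold er
          rw [f1, f2, mul_one, mul_one, w_mul, w_mul]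
          ring
      have hts : ∑' n : ℕ, (ψ₁ ((Real.log n / L - μ p) / δ) : ℂ) * w n t =
          ∑ n ∈ Finset.Icc 1 Y, (ψ₁ ((Real.log n / L - μ p) / δ) : ℂ) * w n t := by
        refine tsum_eq_sum fun n hn => ?_
        rcases Nat.eq_zero_or_pos n with hn0 | hn0
        · subst hn0
          rw [w_zero, mul_zero]
        · have h3 : Y < n := by
            by_contra hcon
            exact hn (Finset.mem_Icc.2 ⟨hn0, not_lt.1 hcon⟩)
          have hn' : (0 : ℝ) < n := by exact_mod_cast hn0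
          have h5 : Real.log Y ≤ Real.log n := Real.log_le_log (by exact_mod_cast hY1)
            (by exact_mod_cast h3.le)
          rw [h0, Complex.ofReal_zero, zero_mul]
          have q1 : 0 ≤ Real.log p.1 := Real.log_nonneg (by exact_mod_cast g1)
          have q2 : 0 ≤ Real.log p.2 := Real.log_nonneg (by exact_mod_cast g2)
          have e4 : Real.log n / L - μ p = (Real.log n + Real.log p.1 + Real.log p.2) / L := by
            rw [hμ]
            simp only
            ring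
          rw [abs_div, abs_of_pos hδ0, le_div_iff₀ hδ0, e4, abs_of_nonneg (by positivity), one_mul,
            le_div_iff₀ hL0]
          linarith
      rw [hts, Finset.mul_sum, Finset.mul_sum]
      exact Finset.sum_congr rfl fun n hn => hterm n (Finset.mem_Icc.1 hn).1
    rw [Finset.sum_congr rfl h1, hs', Finset.sum_product' (f := fun h k =>
      (al h : ℂ) * (al k : ℂ) * ∑ n ∈ Finset.Icc 1 Y, G (h * k * n)), arith hA Y hY1 G hGY]
    rw [hGdef]
    simp only
    rw [Nat.cast_one, Real.log_one, zero_div, zero_div, hψ0, w_one, Complex.ofReal_one, mul_one]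
  rw [hint', ← hsum]
  refine hmain.trans ?_
  have hcard : (s.card : ℝ) ≤ T ^ (2 * θ) := by
    rw [hs', Finset.card_product, Nat.card_Icc, Nat.add_sub_cancel]
    push_cast
    rw [two_mul, Real.rpow_add hT0]
    gcongr
  have hT5 : T ^ (2 * θ) ≤ T := by
    calc T ^ (2 * θ) ≤ T ^ (1 : ℝ) := Real.rpow_le_rpow_of_exponent_le (by linarith) (by linarith)
      _ = T := Real.rpow_one T
  calc (s.card : ℝ) * (C / T ^ 2) ≤ T * (C / T ^ 2) := by
        apply mul_le_mul_of_nonneg_right (hcard.trans hT5) (by positivity)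
    _ = C * T ^ (-1 : ℝ) := by
        rw [Real.rpow_neg_one]
        field_simp
    _ ≤ 1 / 4 := hT1

end

end Pool.Agent.Q175.UM
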