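import Pool.Agent.Q175.UM.Com

set_option autoImplicit false

/-! Job UM-X0 (helper175): the smoothed `χ^{-1/2} ζ |η|²` is the Dirichlet polynomial `XD`. -/

namespace Pool.Agent.Q175.UM

open Filter Topology MeasureTheory Complex
open Pool.Agent.W182.KO (P TF)
open Q80.SP (kr kr_bd kr_cont sc_int)
open Pool.Agent.Q97.UM
open scoped ContDiff

noncomputable section

theorem et_real (Pw : ℝ → ℝ) (Y n : ℕ) : et Pw Y n = (er Pw Y n : ℂ) := rfl

theorem er_bd {Pw q : ℝ → ℝ} {c₀ C₀ : ℝ} (hG : Gev Pw q c₀ C₀) (hA : S_AL) (Y n : ℕ) :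
    |er Pw Y n| ≤ 1 := by
  unfold er
  rw [abs_mul]
  have h1 := hA.2.2 n
  have h2 := hG.bd (Real.log n / Real.log Y)
  rw [abs_of_nonneg h2.1]
  calc |al n| * Pw (Real.log n / Real.log Y) ≤ 1 * 1 := by
        apply mul_le_mul h1 h2.2 h2.1 zero_le_one
    _ = 1 := one_mul 1

theorem eta_eq (Pw : ℝ → ℝ) (Y : ℕ) (t : ℝ) :
    eta Pw Y t = ∑ n ∈ Finset.Icc 1 Y, (er Pw Y n : ℂ) * w n t := rfl

theorem w_conj (n : ℕ) (hn : 1 ≤ n) (t : ℝ) :
    (starRingEnd ℂ) (w n t) = w n (-t) := by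
  unfold w
  have hnc : (n : ℂ) ≠ 0 := by exact_mod_cast (by omega : n ≠ 0)
  rw [Complex.cpow_def_of_ne_zero hnc, Complex.cpow_def_of_ne_zero hnc, ← Complex.exp_conj]
  congr 1
  rw [← Complex.natCast_log]
  simp only [map_mul, map_neg, map_add, Complex.conj_ofReal, Complex.conj_I, map_div₀, map_one,
    map_ofNat]
  push_cast
  ring

/-- explicit form of `w` -/
theorem w_exp {n : ℕ} (hn : 1 ≤ n) (t : ℝ) :
    w n t = ((1 / Real.sqrt n : ℝ) : ℂ) * cexp (-(I * (Real.log n * t : ℝ))) := by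
  have h1 := w_shift hn 0 t
  rw [zero_add] at h1
  rw [h1]
  congr 1
  unfold w
  have hn0 : (0 : ℝ) ≤ n := by positivity
  rw [Complex.ofReal_zero, zero_mul, add_zero]
  have e2 : (-(1 / 2) : ℂ) = ((-(1 / 2) : ℝ) : ℂ) := by push_cast; ring
  rw [e2, ← Complex.ofReal_natCast, ← Complex.ofReal_cpow hn0]
  congr 1
  rw [Real.rpow_neg hn0, Real.sqrt_eq_rpow, one_div, one_div]

theorem t_X0 : S_X0 := by
  intro Pw q ψ₁ c₀ C₀ θ δ hG hA hF hs h0 hb1 hθ0 hθ1 hδ0 hδ1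
  have hTF := TF_scale hs h0 hδ0
  obtain ⟨C, hC, hdbl⟩ := dbl hF hTF hδ0.le
  have hlim : ∀ᶠ T : ℝ in atTop, (C + 1) * T ^ (-(1 / 2) : ℝ) ≤ 1 := by
    have h1 : Tendsto (fun T : ℝ => (C + 1) * T ^ (-(1 / 2) : ℝ)) atTop (𝓝 ((C + 1) * 0)) :=
      (tendsto_rpow_neg_atTop (by norm_num)).const_mul _
    rw [mul_zero] at h1
    exact (h1.eventually (ge_mem_nhds (by norm_num : (0 : ℝ) < 1)))
  filter_upwards [hlim, eventually_ge_atTop (4 : ℝ)] with T hT1 hT4 t ht1 ht2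
  have hT0 : 0 < T := by linarith
  have hL1 : 1 ≤ Real.log T := by
    have h1 : Real.exp 1 ≤ T := by linarith [Real.exp_one_lt_d9]
    have h2 := Real.log_le_log (Real.exp_pos 1) h1
    rwa [Real.log_exp] at h2
  set L := Real.log T with hL
  have hL0 : 0 < L := by linarith
  set Y := ⌊T ^ θ⌋₊ with hY
  have hYT : (Y : ℝ) ≤ T ^ θ := Nat.floor_le (by positivity)
  have hlogY : ∀ n ∈ Finset.Icc 1 Y, 0 ≤ Real.log n ∧ Real.log n ≤ θ * L := by
    intro n hn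
    obtain ⟨hn1, hn2⟩ := Finset.mem_Icc.1 hn
    have hn1' : (1 : ℝ) ≤ n := by exact_mod_cast hn1
    refine ⟨Real.log_nonneg hn1', ?_⟩
    have h3 : (n : ℝ) ≤ T ^ θ := le_trans (by exact_mod_cast hn2) hYT
    have h4 := Real.log_le_log (by linarith) h3
    rwa [Real.log_rpow hT0] at h4
  -- the data
  set s := (Finset.Icc 1 Y) ×ˢ (Finset.Icc 1 Y) with hs'
  set a : ℕ × ℕ → ℂ := fun p => (er Pw Y p.1 : ℂ) * (er Pw Y p.2 : ℂ) * (w p.1 t * w p.2 (-t)) with ha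
  set μ : ℕ × ℕ → ℝ := fun p => 1 / 2 - (Real.log p.1 - Real.log p.2) / L with hμ
  have hmem : ∀ p ∈ s, p.1 ∈ Finset.Icc 1 Y ∧ p.2 ∈ Finset.Icc 1 Y := fun p hp =>
    Finset.mem_product.1 hp
  have hμb : ∀ p ∈ s, |Real.log p.1 - Real.log p.2| / L ≤ θ := by
    intro p hp
    obtain ⟨h1, h2⟩ := hmem p hp
    obtain ⟨a1, a2⟩ := hlogY _ h1
    obtain ⟨b1, b2⟩ := hlogY _ h2
    rw [div_le_iff₀ hL0, abs_le]
    constructor <;> linarith
  have hμ2 : ∀ p ∈ s, |μ p| ≤ 2 := by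
    intro p hp
    have h1 := hμb p hp
    rw [hμ]
    simp only
    have h2 : |(Real.log p.1 - Real.log p.2) / L| ≤ θ := by
      rwa [abs_div, abs_of_pos hL0]
    rw [abs_le] at h2 ⊢
    constructor <;> linarith
  have ha1 : ∀ p ∈ s, ‖a p‖ ≤ 1 := by
    intro p hp
    obtain ⟨h1, h2⟩ := hmem p hp
    have e1 := er_bd hG hA Y p.1
    have e2 := er_bd hG hA Y p.2
    have e3 := w_norm (Finset.mem_Icc.1 h1).1 t
    have e4 := w_norm (Finset.mem_Icc.1 h2).1 (-t)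
    rw [ha]
    simp only [norm_mul, Complex.norm_real, Real.norm_eq_abs]
    have f1 : |er Pw Y p.1| * |er Pw Y p.2| ≤ 1 := by
      nlinarith [abs_nonneg (er Pw Y p.1), abs_nonneg (er Pw Y p.2)]
    have f2 : ‖w p.1 t‖ * ‖w p.2 (-t)‖ ≤ 1 := by
      nlinarith [norm_nonneg (w p.1 t), norm_nonneg (w p.2 (-t))]
    have f3 : 0 ≤ ‖w p.1 t‖ * ‖w p.2 (-t)‖ := by positivity
    nlinarith [mul_nonneg (abs_nonneg (er Pw Y p.1)) (abs_nonneg (er Pw Y p.2))]
  have hmain := hdbl T hT4 t ht1 ht2 s a μ hμ2 ha1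
  -- the integrand
  have hint : ∀ y : ℝ, (cexp (I * (y * (L / 2) : ℝ)) * zt (t + y) *
      ((‖eta Pw Y (t + y)‖ ^ 2 : ℝ) : ℂ)) =
      ∑ p ∈ s, a p * (cexp (I * (μ p * L * y : ℝ)) * zt (t + y)) := by
    intro y
    have e1 : ((‖eta Pw Y (t + y)‖ ^ 2 : ℝ) : ℂ) =
        eta Pw Y (t + y) * (starRingEnd ℂ) (eta Pw Y (t + y)) := by
      rw [Complex.mul_conj, Complex.normSq_eq_norm_sq]
    rw [e1, eta_eq, map_sum, Finset.sum_mul_sum, ← Finset.sum_product', Finset.mul_sum]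
    refine Finset.sum_congr rfl fun p hp => ?_
    obtain ⟨h1, h2⟩ := hmem p hp
    have g1 := (Finset.mem_Icc.1 h1).1
    have g2 := (Finset.mem_Icc.1 h2).1
    rw [map_mul, Complex.conj_ofReal, w_conj _ g2, neg_add, w_shift g1, w_shift g2]
    rw [ha, hμ]
    simp only
    have e2 : cexp (I * ((((1 / 2 - (Real.log p.1 - Real.log p.2) / L) * L * y : ℝ)) : ℂ)) =
        cexp (I * (y * (L / 2) : ℝ)) * (cexp (-(I * (Real.log p.1 * y : ℝ))) *
          cexp (-(I * (Real.log p.2 * (-y) : ℝ)))) := by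
      rw [← Complex.exp_add, ← Complex.exp_add]
      congr 1
      have hLc : (L : ℂ) ≠ 0 := Complex.ofReal_ne_zero.2 hL0.ne'
      push_cast
      field_simp
      ring
    rw [e2]
    ring
  have hint' : (∫ y : ℝ, kr (fun u => (ψ₁ (u / δ) : ℂ)) L y *
      (cexp (I * (y * (L / 2) : ℝ)) * zt (t + y) * ((‖eta Pw Y (t + y)‖ ^ 2 : ℝ) : ℂ))) =
      ∫ y : ℝ, kr (fun u => (ψ₁ (u / δ) : ℂ)) L y *
        (∑ p ∈ s, a p * (cexp (I * (μ p * L * y : ℝ)) * zt (t + y))) := by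
    refine integral_congr_ae (Eventually.of_forall fun y => ?_)
    simp only
    rw [hint y]
  -- the Dirichlet polynomial
  have hXD : XD Pw ψ₁ δ Y ⌊T⌋₊ L t =
      ∑ p ∈ s, a p * ∑' n : ℕ, (ψ₁ ((Real.log n / L - μ p) / δ) : ℂ) * w n t := by
    unfold XD
    rw [← Finset.sum_product' (f := fun h k => ∑ n ∈ Finset.Icc 1 ⌊T⌋₊,
      ((er Pw Y h * er Pw Y k / Real.sqrt ((h : ℝ) * k * n) *
      ψ₁ ((Real.log n / L - (1 / 2 - (Real.log h - Real.log k) / L)) / δ) : ℝ) : ℂ) *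
      cexp (-(I * ((Real.log n + Real.log h - Real.log k) * t : ℝ))))]
    refine Finset.sum_congr rfl fun p hp => ?_
    obtain ⟨h1, h2⟩ := hmem p hp
    have g1 := (Finset.mem_Icc.1 h1).1
    have g2 := (Finset.mem_Icc.1 h2).1
    have hts : ∑' n : ℕ, (ψ₁ ((Real.log n / L - μ p) / δ) : ℂ) * w n t =
        ∑ n ∈ Finset.Icc 1 ⌊T⌋₊, (ψ₁ ((Real.log n / L - μ p) / δ) : ℂ) * w n t := by
      refine tsum_eq_sum fun n hn => ?_
      rcases Nat.eq_zero_or_pos n with hn0 | hn0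
      · subst hn0
        rw [w_zero, mul_zero]
      · have h3 : ⌊T⌋₊ < n := by
          by_contra hcon
          exact hn (Finset.mem_Icc.2 ⟨hn0, not_lt.1 hcon⟩)
        have h4 : T < n := (Nat.floor_lt hT0.le).1 h3
        have h5 : L ≤ Real.log n := Real.log_le_log hT0 h4.le
        rw [h0, Complex.ofReal_zero, zero_mul]
        rw [abs_div, abs_of_pos hδ0, le_div_iff₀ hδ0]
        have h6 : 1 ≤ Real.log n / L := by rwa [le_div_iff₀ hL0, one_mul]
        have h7 := hμb p hp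
        have h8 : -θ ≤ (Real.log p.1 - Real.log p.2) / L := by
          have : |(Real.log p.1 - Real.log p.2) / L| ≤ θ := by
            rwa [abs_div, abs_of_pos hL0]
          exact (abs_le.1 this).1
        refine le_trans ?_ (le_abs_self _)
        rw [hμ]
        simp only
        linarith
    rw [hts, Finset.mul_sum]
    refine Finset.sum_congr rfl fun n hn => ?_
    have g3 := (Finset.mem_Icc.1 hn).1
    rw [ha, hμ]
    simp only
    rw [w_exp g1, w_exp g2, w_exp g3]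
    have e3 : Real.sqrt ((p.1 : ℝ) * p.2 * n) = Real.sqrt p.1 * Real.sqrt p.2 * Real.sqrt n := by
      rw [Real.sqrt_mul (by positivity), Real.sqrt_mul (by positivity)]
    have e4 : cexp (-(I * ((Real.log n + Real.log p.1 - Real.log p.2) * t : ℝ))) =
        cexp (-(I * (Real.log p.1 * t : ℝ))) * cexp (-(I * (Real.log p.2 * (-t) : ℝ))) *
          cexp (-(I * (Real.log n * t : ℝ))) := by
      rw [← Complex.exp_add, ← Complex.exp_add]
      congr 1
      push_cast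
      ring
    rw [e3, e4]
    push_cast
    field_simp
  rw [hint', hXD]
  refine hmain.trans ?_
  have hcard : (s.card : ℝ) ≤ T ^ (2 * θ) := by
    rw [hs', Finset.card_product, Nat.card_Icc, Nat.add_sub_cancel]
    push_cast
    rw [two_mul, Real.rpow_add hT0]
    gcongr
  have hT5 : T ^ (2 * θ) ≤ T ^ (1 / 2 : ℝ) := Real.rpow_le_rpow_of_exponent_le (by linarith)
    (by linarith)
  have h6 : T ^ (1 / 2 : ℝ) * C / T ≤ 1 := by
    have h7 : T ^ (-(1 / 2) : ℝ) = T ^ (1 / 2 : ℝ) / T := by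
      rw [eq_div_iff hT0.ne']
      nth_rewrite 2 [← Real.rpow_one T]
      rw [← Real.rpow_add hT0]
      norm_num
    rw [h7] at hT1
    have h8 : T ^ (1 / 2 : ℝ) * C / T = C * (T ^ (1 / 2 : ℝ) / T) := by ring
    rw [h8]
    refine le_trans ?_ hT1
    have : 0 ≤ T ^ (1 / 2 : ℝ) / T := by positivity
    nlinarith
  calc (s.card : ℝ) * (C / T ^ 2) ≤ T ^ (1 / 2 : ℝ) * (C / T ^ 2) := by
        apply mul_le_mul_of_nonneg_right (hcard.trans hT5) (by positivity)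
    _ = (T ^ (1 / 2 : ℝ) * C / T) * (1 / T) := by
        field_simp
    _ ≤ 1 * (1 / T) := mul_le_mul_of_nonneg_right h6 (by positivity)
    _ = 1 / T := one_mul _

end

end Pool.Agent.Q175.UM
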